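import Pool.Agent.H73.KG.Stmts

/-!
# Module PWB: the posterior measures
-/

set_option autoImplicit false

open MeasureTheory Set
open scoped ContDiff

namespace Pool.Agent.H85.KG

open Pool.Agent.H84 Pool.Agent.H84.Sym Pool.Agent.H84.Sym.P2x Pool.Agent.H19.KL
open Pool.Agent.H84.Sym.C29 Pool.Agent.H84.Sym.P6
open Pool.Agent.H73.KG

variable {E : Type} [NormedAddCommGroup E] [InnerProductSpace ℝ E]
    [FiniteDimensional ℝ E] [MeasurableSpace E] [BorelSpace E]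

omit [FiniteDimensional ℝ E] [MeasurableSpace E] [BorelSpace E] in
/-- the posterior potentials, not normalised, with a constant added -/
theorem tp_add_pot {U : E → ℝ} {t C : ℝ} (hU : Pot U t C) {s : ℝ} (hs : 0 ≤ s) (θ : E) (c : ℝ) :
    ∃ C' : ℝ, Pot (fun x => tp U s θ x + c) (t + s) C' := by
  have h1 := (pot_add_aff (pot_add_quad hU hs 0).1 (-θ) c).1
  refine ⟨C + s * (1 + ‖(0:E)‖) + ‖-θ‖, ?_⟩
  · have e : (fun x => pt U s 0 x + (inner ℝ (-θ) x + c)) = fun x => tp U s θ x + c := by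
      ext x
      unfold tp pt
      rw [sub_zero, inner_neg_left]
      ring
    rw [e] at h1
    exact h1

omit [FiniteDimensional ℝ E] [MeasurableSpace E] [BorelSpace E] in
theorem tp_pot {U : E → ℝ} {t C : ℝ} (hU : Pot U t C) {s : ℝ} (hs : 0 ≤ s) (θ : E) :
    ∃ C' : ℝ, Pot (tp U s θ) (t + s) C' := by
  obtain ⟨C', h⟩ := tp_add_pot hU hs θ 0
  refine ⟨C', ?_⟩
  have e : (fun x => tp U s θ x + 0) = tp U s θ := by ext x; simp
  rwa [e] at h

theorem ZF_eq {U : E → ℝ} {t C : ℝ} (hU : Pot U t C) {s : ℝ} (hs : 0 ≤ s) (θ : E) (F : E → ℝ) :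
    ZF U s θ F = ∫ x, F x ∂(mu (tp U s θ)) := by
  obtain ⟨C', h⟩ := tp_pot hU hs θ
  exact (integral_mu h.smooth.continuous F).symm

theorem ZF_one_pos {U : E → ℝ} {t C : ℝ} (hU : Pot U t C) {s : ℝ} (hs : 0 ≤ s) (θ : E) :
    0 < ZF U s θ (fun _ => 1) := by
  obtain ⟨C', h⟩ := tp_pot hU hs θ
  have h1 := mu_univ_pos h.smooth.continuous (isFinite_mu h)
  rw [ZF_eq hU hs]
  simpa using h1

theorem int_pw {U : E → ℝ} {t C : ℝ} (hU : Pot U t C) {s : ℝ} (hs : 0 ≤ s) (θ : E) (F : E → ℝ) :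
    ∫ x, F x ∂(mu (pw U s θ)) = pm U s θ F := by
  obtain ⟨C', h⟩ := tp_pot hU hs θ
  have h1 := mu_add_const (tp U s θ) h.smooth.continuous (Real.log (ZF U s θ (fun _ => 1)))
  have h2 : mu (pw U s θ) = ENNReal.ofReal (Real.exp (-Real.log (ZF U s θ (fun _ => 1)))) •
      mu (tp U s θ) := h1
  rw [h2, integral_smul_measure, ENNReal.toReal_ofReal (Real.exp_pos _).le, Real.exp_neg,
    Real.exp_log (ZF_one_pos hU hs θ), ← ZF_eq hU hs, smul_eq_mul]
  unfold pm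
  ring

theorem prob_pw {U : E → ℝ} {t C : ℝ} (hU : Pot U t C) {s : ℝ} (hs : 0 ≤ s) (θ : E) :
    IsProbabilityMeasure (mu (pw U s θ)) := by
  have h1 := int_pw hU hs θ (fun _ => 1)
  have h2 : pm U s θ (fun _ => 1) = 1 := div_self (ZF_one_pos hU hs θ).ne'
  rw [h2] at h1
  simp only [integral_const, smul_eq_mul, mul_one] at h1
  refine ⟨?_⟩
  exact (ENNReal.toReal_eq_one_iff _).1 h1

theorem pwb_thm (E : Type) [NormedAddCommGroup E] [InnerProductSpace ℝ E]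
    [FiniteDimensional ℝ E] [MeasurableSpace E] [BorelSpace E] : PWBStmt E := by
  rintro U t ⟨⟨C, hU⟩, hprob⟩
  refine ⟨?_, ?_, ?_⟩
  · intro s θ hs
    obtain ⟨C', h⟩ := tp_add_pot hU hs θ (Real.log (ZF U s θ (fun _ => 1)))
    exact ⟨⟨C', h⟩, prob_pw hU hs θ⟩
  · intro s θ hs F
    exact int_pw hU hs θ F
  · have h0 : tp U 0 (0 : E) = U := by
      ext x
      unfold tp
      simp
    have h1 : ZF U 0 (0 : E) (fun _ => 1) = 1 := by
      rw [ZF_eq hU le_rfl, h0]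
      simp
    ext x
    unfold pw
    rw [h0, h1]
    simp

end Pool.Agent.H85.KG
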