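import Pool.Agent.H85.KG.PMB

/-!
# Module AAG: the evolution of the covariance matrix
-/

set_option autoImplicit false

open MeasureTheory Set Filter Topology
open scoped ContDiff

namespace Pool.Agent.H85.KG

open Pool.Agent.H84 Pool.Agent.H84.Sym Pool.Agent.H84.Sym.P2x Pool.Agent.H19.KL
open Pool.Agent.H84.Sym.C29 Pool.Agent.H84.Sym.P6
open Pool.Agent.H73.KG

variable {E : Type} [NormedAddCommGroup E] [InnerProductSpace ℝ E]
variable [FiniteDimensional ℝ E] [MeasurableSpace E] [BorelSpace E]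

theorem AAG_neg {U : E → ℝ} {t C : ℝ} (hU : Pot U t C) {s : ℝ} (hs : 0 ≤ s) (θ : E)
    (F : E → ℝ) : pm U s θ (fun x => -F x) = -pm U s θ F := by
  have := pm_const_mul hU hs θ (-1) F
  simpa only [neg_one_mul] using this

theorem AAG_gen_congr {ι : Type} [Fintype ι] (b : OrthonormalBasis ι ℝ E) (U : E → ℝ)
    {G H : ℝ → E → ℝ} {s : ℝ} {θ : E} (h1 : (fun r => G r θ) =ᶠ[𝓝 s] fun r => H r θ)
    (h2 : G s = H s) : gen b U G s θ = gen b U H s θ := by
  unfold gen
  rw [h1.deriv_eq, h2]

theorem AAG_t3 {U : E → ℝ} {t C : ℝ} (hU : Pot U t C) {s : ℝ} (hs : 0 ≤ s) (θ η u v : E) :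
    t3 (pw U s θ) η u v = cv (pw U s θ) (fun x => li u x * li v x) (li η) -
      pm U s θ (li u) * cv (pw U s θ) (li v) (li η) -
      pm U s θ (li v) * cv (pw U s θ) (li u) (li η) := by
  have hη := gc_lin η
  have hu := gc_lin u
  have hv := gc_lin v
  have e0 : t3 (pw U s θ) η u v = pm U s θ (fun x => (li η x - pm U s θ (li η)) *
      (li u x - pm U s θ (li u)) * (li v x - pm U s θ (li v))) := by
    unfold t3 H73.KG.mn
    rw [int_pw hU hs, int_pw hU hs, int_pw hU hs, int_pw hU hs]
  rw [e0]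
  generalize ha : pm U s θ (li η) = a
  generalize hc : pm U s θ (li u) = c
  generalize hd : pm U s θ (li v) = d
  have e1 : (fun x => (li η x - a) * (li u x - c) * (li v x - d)) = fun x =>
      (li u x * li v x) * li η x + ((-a) * (li u x * li v x) + ((-c) * (li v x * li η x) +
        ((-d) * (li u x * li η x) + ((a * c) * li v x + ((a * d) * li u x +
          ((c * d) * li η x + (-(a * c * d)))))))) := by
    funext x
    ring
  have g8 : GC (fun _ : E => (-(a * c * d))) := GC.const _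
  have g7 : GC (fun x : E => (c * d) * li η x) := (GC.const _).mul hη
  have g6 : GC (fun x : E => (a * d) * li u x) := (GC.const _).mul hu
  have g5 : GC (fun x : E => (a * c) * li v x) := (GC.const _).mul hv
  have g4 : GC (fun x : E => (-d) * (li u x * li η x)) := (GC.const _).mul (hu.mul hη)
  have g3 : GC (fun x : E => (-c) * (li v x * li η x)) := (GC.const _).mul (hv.mul hη)
  have g2 : GC (fun x : E => (-a) * (li u x * li v x)) := (GC.const _).mul (hu.mul hv)
  have g1 : GC (fun x : E => (li u x * li v x) * li η x) := (hu.mul hv).mul hη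
  rw [e1, pm_add hU hs θ g1 (g2.add (g3.add (g4.add (g5.add (g6.add (g7.add g8)))))),
    pm_add hU hs θ g2 (g3.add (g4.add (g5.add (g6.add (g7.add g8))))),
    pm_add hU hs θ g3 (g4.add (g5.add (g6.add (g7.add g8)))),
    pm_add hU hs θ g4 (g5.add (g6.add (g7.add g8))),
    pm_add hU hs θ g5 (g6.add (g7.add g8)), pm_add hU hs θ g6 (g7.add g8),
    pm_add hU hs θ g7 g8, pm_const hU hs, pm_const_mul hU hs, pm_const_mul hU hs,
    pm_const_mul hU hs, pm_const_mul hU hs, pm_const_mul hU hs, pm_const_mul hU hs,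
    cv_pw hU hs, cv_pw hU hs, cv_pw hU hs, ha, hc, hd]
  ring

theorem aag_thm (E : Type) [NormedAddCommGroup E] [InnerProductSpace ℝ E]
    [FiniteDimensional ℝ E] [MeasurableSpace E] [BorelSpace E] (hRGC : RGCStmt E)
    (hRGP : RGPStmt E) (_hPWB : PWBStmt E) : AAGStmt E := by
  intro U t hPP ι _ _ b i j
  obtain ⟨⟨C, hU⟩, hprob⟩ := id hPP
  obtain ⟨-, radd, rmul, -, rgen, -, rcongr⟩ := hRGC
  have gi := gc_lin (b i)
  have gj := gc_lin (b j)
  have gn : GC (fun x => -li (b j) x) := by
    have := (GC.const (-1)).mul gj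
    simpa only [neg_one_mul] using this
  have gij : GC (fun x => li (b i) x * li (b j) x) := gi.mul gj
  obtain ⟨rij, dij, nij⟩ := hRGP U t hPP _ gij
  obtain ⟨ri, di, ni⟩ := hRGP U t hPP _ gi
  obtain ⟨rn, dn, nn⟩ := hRGP U t hPP _ gn
  have hcm : ∀ s θ, 0 ≤ s → pm U s θ (fun x => li (b i) x * li (b j) x) +
      pm U s θ (li (b i)) * pm U s θ (fun x => -li (b j) x) = cm b (pw U s θ) i j := by
    intro s θ hs
    unfold cm
    rw [Matrix.of_apply, cv_pw hU hs, AAG_neg hU hs]
    ring
  have r1 := rmul _ _ ri rn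
  have r2 := radd _ _ rij r1
  refine ⟨rcongr _ _ r2 hcm, ?_, ?_⟩
  · intro s θ hs
    obtain ⟨a1, -⟩ := rgen _ _ U rij r1 ι b s θ hs
    obtain ⟨-, a2⟩ := rgen _ _ U ri rn ι b s θ hs
    have e1 : gen b U (fun s θ => cm b (pw U s θ) i j) s θ =
        gen b U (fun s θ => pm U s θ (fun x => li (b i) x * li (b j) x) +
          pm U s θ (li (b i)) * pm U s θ (fun x => -li (b j) x)) s θ := by
      refine AAG_gen_congr b U ?_ ?_
      · filter_upwards [Ioi_mem_nhds hs] with r hr
        exact (hcm r θ (le_of_lt hr)).symm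
      · funext θ
        exact (hcm s θ hs.le).symm
    rw [e1, a1, a2, nij ι b s θ hs, ni ι b s θ hs, nn ι b s θ hs]
    have e4 : ((cm b (pw U s θ)) ^ 2) i j = ∑ k, cv (pw U s θ) (li (b i)) (li (b k)) *
        cv (pw U s θ) (li (b k)) (li (b j)) := by
      rw [pow_two, Matrix.mul_apply]
      rfl
    rw [e4, mul_zero, mul_zero, zero_add, zero_add, zero_add, ← Finset.sum_neg_distrib]
    refine Finset.sum_congr rfl fun k _ => ?_
    have f1 : D (b k) (fun θ => pm U s θ (li (b i))) θ =
        cv (pw U s θ) (li (b i)) (li (b k)) := (di s θ (b k) hs.le).2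
    have f2 : D (b k) (fun θ => pm U s θ (fun x => -li (b j) x)) θ =
        cv (pw U s θ) (fun x => -li (b j) x) (li (b k)) := (dn s θ (b k) hs.le).2
    rw [f1, f2]
    have f3 : cv (pw U s θ) (fun x => -li (b j) x) (li (b k)) =
        -cv (pw U s θ) (li (b k)) (li (b j)) := by
      rw [cv_pw hU hs.le, cv_pw hU hs.le, AAG_neg hU hs.le]
      have f4 : (fun x => -li (b j) x * li (b k) x) = fun x => -(li (b k) x * li (b j) x) := by
        funext x
        ring
      rw [f4, AAG_neg hU hs.le]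
      ring
    rw [f3]
    ring
  · intro s θ η hs
    have e3 : (fun θ => cm b (pw U s θ) i j) = fun θ =>
        pm U s θ (fun x => li (b i) x * li (b j) x) +
        pm U s θ (li (b i)) * pm U s θ (fun x => -li (b j) x) := by
      funext θ
      exact (hcm s θ hs).symm
    obtain ⟨c1, c2⟩ := dij s θ η hs
    obtain ⟨c3, c4⟩ := di s θ η hs
    obtain ⟨c5, c6⟩ := dn s θ η hs
    rw [e3, (c1.hasFDerivAt.fun_add (c3.hasFDerivAt.fun_mul c5.hasFDerivAt)).fderiv]
    simp only [add_apply, smul_apply, smul_eq_mul]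
    rw [c2, c4, c6, AAG_t3 hU hs, AAG_neg hU hs]
    have f3 : cv (pw U s θ) (fun x => -li (b j) x) (li η) =
        -cv (pw U s θ) (li (b j)) (li η) := by
      rw [cv_pw hU hs, cv_pw hU hs, AAG_neg hU hs]
      have f4 : (fun x => -li (b j) x * li η x) = fun x => -(li (b j) x * li η x) := by
        funext x
        ring
      rw [f4, AAG_neg hU hs]
      ring
    rw [f3]
    ring

end Pool.Agent.H85.KG
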