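import Pool.Agent.H73.KG.Stmts

/-!
# Module DYN: the time derivative of the means over the channel
-/

set_option autoImplicit false

open MeasureTheory Set Filter Topology
open scoped ContDiff

namespace Pool.Agent.H85.KG

open Pool.Agent.H84 Pool.Agent.H84.Sym Pool.Agent.H84.Sym.P2x Pool.Agent.H19.KL
open Pool.Agent.H84.Sym.C29 Pool.Agent.H84.Sym.P6
open Pool.Agent.H73.KG

variable {E : Type} [NormedAddCommGroup E] [InnerProductSpace ℝ E]

theorem gc_norm_fst : GC (fun p : E × E => ‖p.1‖) :=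
  ⟨continuous_fst.norm, Gr.of_le Gr.nrm fun p => by
    rw [abs_of_nonneg (norm_nonneg _), abs_of_nonneg (norm_nonneg _)]
    exact norm_fst_le p⟩

theorem gc_norm_snd : GC (fun p : E × E => ‖p.2‖) :=
  ⟨continuous_snd.norm, Gr.of_le Gr.nrm fun p => by
    rw [abs_of_nonneg (norm_nonneg _), abs_of_nonneg (norm_nonneg _)]
    exact norm_snd_le p⟩

theorem gc_exp_norm {B : ℝ} (hB : 0 ≤ B) :
    GC (fun p : E × E => Real.exp (B * (‖p.1‖ + ‖p.2‖))) := by
  refine ⟨Real.continuous_exp.comp (continuous_const.mul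
    (continuous_fst.norm.add continuous_snd.norm)), 1, 2 * B, fun p => ?_⟩
  rw [abs_of_pos (Real.exp_pos _), one_mul]
  apply Real.exp_le_exp.2
  have h1 := norm_fst_le p
  have h2 := norm_snd_le p
  nlinarith

theorem gc_fst {F : E → ℝ} (hF : GC F) : GC (fun p : E × E => F p.1) := by
  obtain ⟨A, B, hA, hB, h⟩ := Gr.norm hF.2
  refine ⟨hF.1.comp continuous_fst, A, B, fun p => (h _).trans ?_⟩
  apply mul_le_mul_of_nonneg_left _ hA
  exact Real.exp_le_exp.2 (mul_le_mul_of_nonneg_left (norm_fst_le p) hB)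

theorem gc_snd {F : E → ℝ} (hF : GC F) : GC (fun p : E × E => F p.2) := by
  obtain ⟨A, B, hA, hB, h⟩ := Gr.norm hF.2
  refine ⟨hF.1.comp continuous_snd, A, B, fun p => (h _).trans ?_⟩
  apply mul_le_mul_of_nonneg_left _ hA
  exact Real.exp_le_exp.2 (mul_le_mul_of_nonneg_left (norm_snd_le p) hB)

theorem gc_li (e : E) : GC (li e) := by
  refine ⟨continuous_const.inner continuous_id, ‖e‖, 1, fun x => ?_⟩
  have h1 := abs_real_inner_le_norm e x
  have h2 := Real.add_one_le_exp ‖x‖
  have h3 : ‖x‖ ≤ Real.exp (1 * ‖x‖) := by rw [one_mul]; linarith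
  exact h1.trans (mul_le_mul_of_nonneg_left h3 (norm_nonneg e))

/-- the natural parameter -/
theorem norm_path {s : ℝ} (hs : 0 ≤ s) (p : E × E) :
    ‖s • p.1 + Real.sqrt s • p.2‖ ≤ (s + Real.sqrt s) * (‖p.1‖ + ‖p.2‖) := by
  have h1 : ‖s • p.1‖ = s * ‖p.1‖ := by rw [norm_smul, Real.norm_eq_abs, abs_of_nonneg hs]
  have h2 : ‖Real.sqrt s • p.2‖ = Real.sqrt s * ‖p.2‖ := by
    rw [norm_smul, Real.norm_eq_abs, abs_of_nonneg (Real.sqrt_nonneg s)]
  have h3 := norm_add_le (s • p.1) (Real.sqrt s • p.2)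
  have h4 := Real.sqrt_nonneg s
  have h5 := norm_nonneg p.1
  have h6 := norm_nonneg p.2
  rw [h1, h2] at h3
  nlinarith [mul_nonneg hs h6, mul_nonneg h4 h5]

theorem cont_path (s : ℝ) : Continuous (fun p : E × E => s • p.1 + Real.sqrt s • p.2) :=
  (continuous_fst.const_smul s).add (continuous_snd.const_smul (Real.sqrt s))

theorem gc_path {F : E → ℝ} (hF : GC F) {s : ℝ} (hs : 0 ≤ s) :
    GC (fun p : E × E => F (s • p.1 + Real.sqrt s • p.2)) := by
  obtain ⟨A, B, hA, hB, h⟩ := Gr.norm hF.2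
  have hc : 0 ≤ B * (s + Real.sqrt s) := mul_nonneg hB (add_nonneg hs (Real.sqrt_nonneg s))
  refine ⟨hF.1.comp (cont_path s), Gr.of_le ((GC.const A).mul (gc_exp_norm hc)).2 fun p => ?_⟩
  rw [abs_of_nonneg (mul_nonneg hA (Real.exp_pos _).le)]
  refine (h _).trans ?_
  apply mul_le_mul_of_nonneg_left _ hA
  apply Real.exp_le_exp.2
  rw [mul_assoc]
  exact mul_le_mul_of_nonneg_left (norm_path hs p) hB

variable [FiniteDimensional ℝ E] [MeasurableSpace E] [BorelSpace E]

theorem gp_eq : gp (E := E) = np (fun _ : E => (0:ℝ)) 1 0 := by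
  ext x
  unfold gp np NI gs pt
  simp

theorem gp_pot : ∃ C : ℝ, Pot (gp (E := E)) 1 C := by
  rw [gp_eq]
  exact ⟨_, np_pot (pot_gauss one_pos 0)⟩

theorem gp_prob : IsProbabilityMeasure (mu (gp (E := E))) := by
  rw [gp_eq]
  exact prob_np (adm_zero one_pos) 0

theorem gp_cont : Continuous (gp (E := E)) := by
  obtain ⟨C, h⟩ := gp_pot (E := E)
  exact h.smooth.continuous

theorem gc_int_prod {U : E → ℝ} {t C : ℝ} (hU : Pot U t C) {F : E × E → ℝ} (hF : GC F) :
    Integrable F ((mu U).prod (mu (gp (E := E)))) := by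
  have := isFinite_mu hU
  have := gp_prob (E := E)
  obtain ⟨C', hg⟩ := gp_pot (E := E)
  obtain ⟨A, B, hA, hB, h⟩ := Gr.norm hF.2
  have hexp : GC (fun x : E => Real.exp (B * ‖x‖)) :=
    ⟨Real.continuous_exp.comp (continuous_const.mul continuous_norm), 1, B, fun x => by
      rw [abs_of_pos (Real.exp_pos _), one_mul]⟩
  have h1 : Integrable (fun p : E × E => (A * Real.exp (B * ‖p.1‖)) * Real.exp (B * ‖p.2‖))
      ((mu U).prod (mu (gp (E := E)))) :=
    Integrable.mul_prod (f := fun x : E => A * Real.exp (B * ‖x‖))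
      (g := fun x : E => Real.exp (B * ‖x‖)) ((hexp.integrable hU).const_mul A)
      (hexp.integrable hg)
  refine h1.mono' hF.1.aestronglyMeasurable (Eventually.of_forall fun p => ?_)
  rw [Real.norm_eq_abs]
  refine (h p).trans ?_
  rw [mul_assoc, ← Real.exp_add]
  apply mul_le_mul_of_nonneg_left _ hA
  apply Real.exp_le_exp.2
  rw [← mul_add]
  apply mul_le_mul_of_nonneg_left _ hB
  rw [Prod.norm_def]
  exact max_le (by linarith [norm_nonneg p.2]) (by linarith [norm_nonneg p.1])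

/-- `EX` as an integral over the product -/
theorem EX_prod {U : E → ℝ} {t C : ℝ} (hU : Pot U t C) {F : E → ℝ} (hF : GC F) {s : ℝ}
    (hs : 0 ≤ s) : EX U s F =
      ∫ p : E × E, F (s • p.1 + Real.sqrt s • p.2) ∂((mu U).prod (mu (gp (E := E)))) := by
  have := isFinite_mu hU
  have := gp_prob (E := E)
  rw [integral_prod _ (gc_int_prod hU (gc_path hF hs))]
  rfl

theorem EX_prod_mul {U : E → ℝ} {t C : ℝ} (hU : Pot U t C) {F h : E → ℝ} (hF : GC F) (hh : GC h)
    {s : ℝ} (hs : 0 ≤ s) :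
    ∫ x, h x * (∫ g, F (s • x + Real.sqrt s • g) ∂(mu (gp (E := E)))) ∂(mu U) =
      ∫ p : E × E, h p.1 * F (s • p.1 + Real.sqrt s • p.2)
        ∂((mu U).prod (mu (gp (E := E)))) := by
  have := isFinite_mu hU
  have := gp_prob (E := E)
  rw [integral_prod _ (gc_int_prod hU ((gc_fst hh).mul (gc_path hF hs)))]
  refine integral_congr_ae (Eventually.of_forall fun x => ?_)
  show h x * (∫ g, F (s • x + Real.sqrt s • g) ∂(mu (gp (E := E)))) =
    ∫ g, h x * F (s • x + Real.sqrt s • g) ∂(mu (gp (E := E)))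
  rw [integral_const_mul]

/-- Gaussian integration by parts -/
theorem gauss_ibp {f f' : E → ℝ} (hf : GC f) (hf' : GC f') (e : E)
    (hd : ∀ x, HasLineDerivAt ℝ f (f' x) x e) :
    ∫ x, li e x * f x ∂(mu (gp (E := E))) = ∫ x, f' x ∂(mu (gp (E := E))) := by
  obtain ⟨C, hg⟩ := gp_pot (E := E)
  have hc := gp_cont (E := E)
  rw [integral_mu hc, integral_mu hc]
  set w : E → ℝ := fun x => Real.exp (-gp x) with hw
  have hgd : ∀ x : E, HasFDerivAt (gp (E := E)) (innerSL ℝ x) x := by
    intro x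
    have h1 : HasFDerivAt (fun x : E => ‖x‖ ^ 2) (2 • (innerSL ℝ x)) x :=
      (hasStrictFDerivAt_norm_sq x).hasFDerivAt
    have h2 := (h1.mul_const (2⁻¹ : ℝ)).add_const (Real.log (gs E 1))
    have e1 : (gp (E := E)) = fun x => ‖x‖ ^ 2 * 2⁻¹ + Real.log (gs E 1) := by
      ext x
      rw [gp, div_eq_mul_inv]
    rw [e1]
    refine h2.congr_fderiv ?_
    ext v
    simp
  have hwd : ∀ x : E, HasFDerivAt w (-(w x) • innerSL ℝ x) x := by
    intro x
    have h1 := ((hgd x).neg).exp
    refine h1.congr_fderiv ?_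
    ext v
    simp [hw]
  have hwl : ∀ x : E, HasLineDerivAt ℝ w (-(w x) * inner ℝ x e) x e := by
    intro x
    have := (hwd x).hasLineDerivAt e
    simpa using this
  have i1 : Integrable (fun x => f' x * w x) := (integrable_mu_iff hc).1 (hf'.integrable hg)
  have i2 : Integrable (fun x => f x * (-(w x) * inner ℝ x e)) := by
    have h1 := (integrable_mu_iff hc).1 ((((gc_li e).mul hf).neg).integrable hg)
    refine h1.congr (Eventually.of_forall fun x => ?_)
    show -(li e x * f x) * w x = _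
    unfold li
    rw [real_inner_comm]
    ring
  have i3 : Integrable (fun x => f x * w x) := (integrable_mu_iff hc).1 (hf.integrable hg)
  have key := integral_bilinear_hasLineDerivAt_right_eq_neg_left_of_integrable
    (B := ContinuousLinearMap.mul ℝ ℝ) (μ := (volume : Measure E)) (f := f) (f' := f') (g := w)
    (g' := fun x => -(w x) * inner ℝ x e) (v := e) i1 i2 i3 (fun x _ => hd x) (fun x _ => hwl x)
  simp only [ContinuousLinearMap.mul_apply'] at key
  have h5 : ∫ x, li e x * f x * Real.exp (-gp x) = -∫ x, f x * (-(w x) * inner ℝ x e) := by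
    rw [← integral_neg]
    refine integral_congr_ae (Eventually.of_forall fun x => ?_)
    show li e x * f x * w x = -(f x * (-(w x) * inner ℝ x e))
    unfold li
    rw [real_inner_comm]
    ring
  rw [h5, key, neg_neg]

omit [FiniteDimensional ℝ E] [MeasurableSpace E] [BorelSpace E] in
/-- the derivative of the path -/
theorem path_deriv (x g : E) {s : ℝ} (hs : 0 < s) :
    HasDerivAt (fun r : ℝ => ((r, r • x + Real.sqrt r • g) : ℝ × E))
      (1, x + (1 / (2 * Real.sqrt s)) • g) s := by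
  have h1 : HasDerivAt (fun r : ℝ => r • x) x s := by
    simpa using (hasDerivAt_id s).smul_const x
  have h2 : HasDerivAt (fun r : ℝ => Real.sqrt r • g) ((1 / (2 * Real.sqrt s)) • g) s :=
    (Real.hasDerivAt_sqrt hs.ne').smul_const g
  exact (hasDerivAt_id s).prodMk (h1.add h2)

omit [FiniteDimensional ℝ E] [MeasurableSpace E] [BorelSpace E] in
theorem gc_fix {F : E × E → ℝ} (hF : GC F) (x : E) : GC (fun g : E => F (x, g)) := by
  obtain ⟨A, B, hA, hB, h⟩ := Gr.norm hF.2
  refine ⟨hF.1.comp (Continuous.prodMk_right x), A * Real.exp (B * ‖x‖), B,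
    fun g => (h _).trans ?_⟩
  rw [mul_assoc, ← Real.exp_add]
  apply mul_le_mul_of_nonneg_left _ hA
  apply Real.exp_le_exp.2
  rw [← mul_add]
  apply mul_le_mul_of_nonneg_left _ hB
  rw [Prod.norm_def]
  exact max_le (by linarith [norm_nonneg g]) (by linarith [norm_nonneg x])

section reg

variable {G : ℝ → E → ℝ}

omit [FiniteDimensional ℝ E] [MeasurableSpace E] [BorelSpace E] in
theorem rg_diff (hG : RG G) {s : ℝ} (hs : 0 < s) (θ : E) :
    HasFDerivAt (Function.uncurry G) (fderiv ℝ (Function.uncurry G) (s, θ)) (s, θ) := by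
  have h1 : (Ioi (0:ℝ) ×ˢ (univ : Set E)) ∈ 𝓝 ((s, θ) : ℝ × E) :=
    (isOpen_Ioi.prod isOpen_univ).mem_nhds ⟨hs, mem_univ _⟩
  exact ((hG.smooth.contDiffAt h1).differentiableAt (by norm_num)).hasFDerivAt

omit [FiniteDimensional ℝ E] [MeasurableSpace E] [BorelSpace E] in
theorem rg_cont (hG : RG G) {s : ℝ} (hs : 0 < s) :
    Continuous (fun θ : E => fderiv ℝ (Function.uncurry G) (s, θ)) := by
  have h1 := hG.smooth.continuousOn_fderiv_of_isOpen (isOpen_Ioi.prod isOpen_univ)
    (by norm_num : (1 : WithTop ℕ∞) ≤ 2)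
  exact h1.comp_continuous (Continuous.prodMk_right s) (fun θ => ⟨hs, mem_univ _⟩)

omit [FiniteDimensional ℝ E] [MeasurableSpace E] [BorelSpace E] in
theorem rg_bound (hG : RG G) (S : ℝ) : ∃ A B : ℝ, 0 ≤ A ∧ 0 ≤ B ∧ ∀ s ∈ Ioc 0 S, ∀ θ : E,
    |G s θ| ≤ A * Real.exp (B * ‖θ‖) ∧
    ‖fderiv ℝ (Function.uncurry G) (s, θ)‖ ≤ A * Real.exp (B * ‖θ‖) := by
  obtain ⟨A, B, h⟩ := hG.growth S
  refine ⟨|A|, |B|, abs_nonneg A, abs_nonneg B, fun s hs θ => ?_⟩
  have h1 : A * Real.exp (B * ‖θ‖) ≤ |A| * Real.exp (|B| * ‖θ‖) :=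
    mul_le_mul (le_abs_self A) (Real.exp_le_exp.2 (mul_le_mul_of_nonneg_right (le_abs_self B)
      (norm_nonneg θ))) (Real.exp_pos _).le (abs_nonneg A)
  have h2 := h 0 (by norm_num) s hs θ
  have h3 := h 1 (by norm_num) s hs θ
  rw [norm_iteratedFDeriv_zero] at h2
  rw [norm_iteratedFDeriv_one] at h3
  exact ⟨h2.trans h1, h3.trans h1⟩

omit [FiniteDimensional ℝ E] [MeasurableSpace E] [BorelSpace E] in
theorem rg_deriv (hG : RG G) {s : ℝ} (hs : 0 < s) (θ : E) :
    deriv (fun r => G r θ) s = fderiv ℝ (Function.uncurry G) (s, θ) (1, 0) := by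
  have h1 : HasDerivAt (fun r : ℝ => ((r, θ) : ℝ × E)) (1, 0) s :=
    (hasDerivAt_id s).prodMk (hasDerivAt_const s θ)
  exact ((rg_diff hG hs θ).comp_hasDerivAt s h1).deriv

omit [FiniteDimensional ℝ E] [MeasurableSpace E] [BorelSpace E] in
theorem rg_fderiv (hG : RG G) {s : ℝ} (hs : 0 < s) (θ v : E) :
    fderiv ℝ (G s) θ v = fderiv ℝ (Function.uncurry G) (s, θ) (0, v) := by
  have h1 : HasFDerivAt (fun θ : E => ((s, θ) : ℝ × E)) (ContinuousLinearMap.inr ℝ ℝ E) θ :=
    hasFDerivAt_prodMk_right s θ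
  have h2 := ((rg_diff hG hs θ).comp θ h1).fderiv
  have h3 : fderiv ℝ (G s) θ = _ := h2
  rw [h3]
  rfl

end reg

theorem dyn_lin3 {α ι : Type} [Fintype ι] [MeasurableSpace α] {P : Measure α} {f : α → ℝ}
    {g h : ι → α → ℝ} {c : ℝ} (hf : Integrable f P) (hg : ∀ i, Integrable (g i) P)
    (hh : ∀ i, Integrable (h i) P) :
    ∫ p, (f p + ((∑ i, g i p) + c * ∑ i, h i p)) ∂P =
      (∫ p, f p ∂P) + ((∑ i, ∫ p, g i p ∂P) + c * ∑ i, ∫ p, h i p ∂P) := by
  have i1 : Integrable (fun p => ∑ i, g i p) P := integrable_finsetSum _ fun i _ => hg i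
  have i2 : Integrable (fun p => c * ∑ i, h i p) P :=
    (integrable_finsetSum _ fun i _ => hh i).const_mul c
  have i3 : Integrable (fun p => (∑ i, g i p) + c * ∑ i, h i p) P := i1.add i2
  rw [integral_add hf i3, integral_add i1 i2, integral_const_mul,
    integral_finsetSum _ fun i _ => hg i, integral_finsetSum _ fun i _ => hh i]

theorem dyn_thm (E : Type) [NormedAddCommGroup E] [InnerProductSpace ℝ E]
    [FiniteDimensional ℝ E] [MeasurableSpace E] [BorelSpace E] (hRGC : RGCStmt E)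
    (hRGP : RGPStmt E) (hBAY : BAYStmt E) : DYNStmt E := by
  intro U t hPP G hG
  have hPP' := hPP
  obtain ⟨⟨C, hU⟩, hprob⟩ := hPP'
  have hgprob := gp_prob (E := E)
  set P : Measure (E × E) := (mu U).prod (mu (gp (E := E))) with hP
  obtain ⟨-, -, -, -, -, hR6, -⟩ := hRGC
  refine ⟨?_, ?_, ?_⟩
  · intro ι _ b s₀ hs₀
    obtain ⟨A, B, hA, hB, hAB⟩ := rg_bound hG (2 * s₀)
    set S : ℝ := 2 * s₀ with hS
    set c : ℝ := 1 / (2 * Real.sqrt (s₀ / 2)) with hc
    have hc0 : 0 < c := by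
      have := Real.sqrt_pos.2 (half_pos hs₀)
      positivity
    set K : ℝ := B * (S + Real.sqrt S) with hK
    have hS0 : 0 ≤ S := by positivity
    have hK0 : 0 ≤ K := mul_nonneg hB (add_nonneg hS0 (Real.sqrt_nonneg S))
    set F' : ℝ → E × E → ℝ := fun r p =>
      fderiv ℝ (Function.uncurry G) (r, r • p.1 + Real.sqrt r • p.2)
        (1, p.1 + (1 / (2 * Real.sqrt r)) • p.2) with hF'
    set bound : E × E → ℝ := fun p =>
      A * Real.exp (K * (‖p.1‖ + ‖p.2‖)) * (1 + ‖p.1‖ + c * ‖p.2‖) with hbound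
    have hbgc : GC bound := by
      have h1 : GC (fun p : E × E => A * Real.exp (K * (‖p.1‖ + ‖p.2‖))) :=
        (GC.const A).mul (gc_exp_norm hK0)
      have h2 : GC (fun p : E × E => 1 + ‖p.1‖ + c * ‖p.2‖) :=
        ((GC.const 1).add gc_norm_fst).add ((GC.const c).mul gc_norm_snd)
      exact h1.mul h2
    have hmain := hasDerivAt_integral_of_dominated_loc_of_deriv_le (μ := P)
      (s := Ioo (s₀ / 2) (2 * s₀)) (x₀ := s₀)
      (F := fun r (p : E × E) => G r (r • p.1 + Real.sqrt r • p.2)) (F' := F') (bound := bound)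
      (Ioo_mem_nhds (by linarith) (by linarith))
      (by
        filter_upwards [Ioi_mem_nhds hs₀] with r hr
        exact ((hR6 G hG r hr).1.1.comp (cont_path r)).aestronglyMeasurable)
      (gc_int_prod hU (gc_path (hR6 G hG s₀ hs₀).1 hs₀.le))
      (by
        apply Continuous.aestronglyMeasurable
        exact ((rg_cont hG hs₀).comp (cont_path s₀)).clm_apply
          (continuous_const.prodMk (continuous_fst.add (continuous_snd.const_smul _))))
      (by
        refine Eventually.of_forall fun p r hr => ?_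
        have hr0 : 0 < r := lt_trans (half_pos hs₀) hr.1
        have h1 := (hAB r ⟨hr0, hr.2.le⟩ (r • p.1 + Real.sqrt r • p.2)).2
        have h2 := norm_path hr0.le p
        have h3 : r + Real.sqrt r ≤ S + Real.sqrt S :=
          add_le_add hr.2.le (Real.sqrt_le_sqrt hr.2.le)
        have h4 : B * ‖r • p.1 + Real.sqrt r • p.2‖ ≤ K * (‖p.1‖ + ‖p.2‖) := by
          rw [hK, mul_assoc]
          apply mul_le_mul_of_nonneg_left _ hB
          refine h2.trans (mul_le_mul_of_nonneg_right h3 ?_)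
          positivity
        have h5 : 1 / (2 * Real.sqrt r) ≤ c := by
          rw [hc]
          have := Real.sqrt_pos.2 (half_pos hs₀)
          have h6 := Real.sqrt_le_sqrt hr.1.le
          apply one_div_le_one_div_of_le (by positivity)
          linarith
        have h7 : ‖(((1:ℝ), p.1 + (1 / (2 * Real.sqrt r)) • p.2) : ℝ × E)‖ ≤
            1 + ‖p.1‖ + c * ‖p.2‖ := by
          rw [Prod.norm_def]
          apply max_le
          · have : ‖(1:ℝ)‖ = 1 := norm_one
            show ‖(1:ℝ)‖ ≤ _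
            rw [this]
            have := norm_nonneg p.1
            have := mul_nonneg hc0.le (norm_nonneg p.2)
            linarith
          · show ‖p.1 + (1 / (2 * Real.sqrt r)) • p.2‖ ≤ _
            have h8 := norm_add_le p.1 ((1 / (2 * Real.sqrt r)) • p.2)
            have h9 : ‖(1 / (2 * Real.sqrt r)) • p.2‖ ≤ c * ‖p.2‖ := by
              rw [norm_smul, Real.norm_eq_abs, abs_of_nonneg (by positivity)]
              exact mul_le_mul_of_nonneg_right h5 (norm_nonneg _)
            linarith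
        calc ‖F' r p‖ ≤ ‖fderiv ℝ (Function.uncurry G) (r, r • p.1 + Real.sqrt r • p.2)‖ *
              ‖(((1:ℝ), p.1 + (1 / (2 * Real.sqrt r)) • p.2) : ℝ × E)‖ :=
              ContinuousLinearMap.le_opNorm _ _
          _ ≤ (A * Real.exp (K * (‖p.1‖ + ‖p.2‖))) * (1 + ‖p.1‖ + c * ‖p.2‖) := by
              apply mul_le_mul _ h7 (norm_nonneg _) (mul_nonneg hA (Real.exp_pos _).le)
              exact h1.trans (mul_le_mul_of_nonneg_left (Real.exp_le_exp.2 h4) hA))
      (gc_int_prod hU hbgc)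
      (by
        refine Eventually.of_forall fun p r hr => ?_
        have hr0 : 0 < r := lt_trans (half_pos hs₀) hr.1
        exact (rg_diff hG hr0 _).comp_hasDerivAt r (path_deriv p.1 p.2 hr0))
    have hder := hmain.2
    have heq : (fun s => EX U s (G s)) =ᶠ[𝓝 s₀]
        fun r => ∫ p : E × E, G r (r • p.1 + Real.sqrt r • p.2) ∂P := by
      filter_upwards [Ioi_mem_nhds hs₀] with r hr
      exact EX_prod hU (hR6 G hG r hr).1 (le_of_lt hr)
    have hval : ∫ p, F' s₀ p ∂P = EX U s₀ (gen b U G s₀) := by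
      obtain ⟨hG1, hG2, hG3, hG4⟩ := hR6 G hG s₀ hs₀
      -- the functions
      set dt : E → ℝ := fun θ => fderiv ℝ (Function.uncurry G) (s₀, θ) (1, 0) with hdt
      have gdt : GC dt := by
        refine ⟨(rg_cont hG hs₀).clm_apply continuous_const, A, B, fun θ => ?_⟩
        have h1 := (hAB s₀ ⟨hs₀, by linarith⟩ θ).2
        have h2 := (fderiv ℝ (Function.uncurry G) (s₀, θ)).le_opNorm (((1:ℝ), (0:E)) : ℝ × E)
        have h3 : ‖(((1:ℝ), (0:E)) : ℝ × E)‖ = 1 := by
          rw [Prod.norm_def]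
          simp
        rw [h3, mul_one] at h2
        exact h2.trans h1
      have gD : ∀ i, GC (D (b i) (G s₀)) := by
        intro i
        refine ⟨(hG2.continuous_fderiv (by norm_num)).clm_apply continuous_const,
          Gr.of_le (Gr.mul hG3 (Gr.of_bdd (A := ‖b i‖) (F := fun _ : E => ‖b i‖)
            fun _ => by rw [abs_of_nonneg (norm_nonneg _)])) fun θ => ?_⟩
        have h2 := (fderiv ℝ (G s₀) θ).le_opNorm (b i)
        refine h2.trans (le_abs_self _)
      have gDD : ∀ i, GC (fun θ => D (b i) (D (b i) (G s₀)) θ) := fun i => hG4 (b i)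
      have gpm : ∀ i, GC (fun θ => pm U s₀ θ (li (b i))) := by
        intro i
        exact (hR6 _ (hRGP U t hPP (li (b i)) (gc_li _)).1 s₀ hs₀).1
      obtain ⟨-, -, -, -, -, hB6, -⟩ := hBAY U t hPP s₀ hs₀.le
      -- the integrand
      have e1 : ∀ p : E × E, F' s₀ p = dt (s₀ • p.1 + Real.sqrt s₀ • p.2) +
          ((∑ i, li (b i) p.1 * D (b i) (G s₀) (s₀ • p.1 + Real.sqrt s₀ • p.2)) +
          (1 / (2 * Real.sqrt s₀)) *
            ∑ i, li (b i) p.2 * D (b i) (G s₀) (s₀ • p.1 + Real.sqrt s₀ • p.2)) := by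
        intro p
        set θ := s₀ • p.1 + Real.sqrt s₀ • p.2 with hθ
        have h1 : ((1:ℝ), p.1 + (1 / (2 * Real.sqrt s₀)) • p.2) =
            ((1:ℝ), (0:E)) + (((0:ℝ), p.1) + (1 / (2 * Real.sqrt s₀)) • ((0:ℝ), p.2)) := by
          ext <;> simp
        have h2 : ∀ v : E, fderiv ℝ (Function.uncurry G) (s₀, θ) (0, v) =
            ∑ i, li (b i) v * D (b i) (G s₀) θ := by
          intro v
          rw [← rg_fderiv hG hs₀]
          conv_lhs => rw [← b.sum_repr' v]
          rw [map_sum]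
          refine Finset.sum_congr rfl fun i _ => ?_
          rw [map_smul, smul_eq_mul]
          rfl
        show fderiv ℝ (Function.uncurry G) (s₀, θ) (1, p.1 + (1 / (2 * Real.sqrt s₀)) • p.2) = _
        rw [h1, map_add, map_add, map_smul, h2, h2, smul_eq_mul]
      have g1 : GC (fun p : E × E => dt (s₀ • p.1 + Real.sqrt s₀ • p.2)) := gc_path gdt hs₀.le
      have g2 : ∀ i, GC (fun p : E × E =>
          li (b i) p.1 * D (b i) (G s₀) (s₀ • p.1 + Real.sqrt s₀ • p.2)) := fun i =>
        (gc_fst (gc_li (b i))).mul (gc_path (gD i) hs₀.le)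
      have g3 : ∀ i, GC (fun p : E × E =>
          li (b i) p.2 * D (b i) (G s₀) (s₀ • p.1 + Real.sqrt s₀ • p.2)) := fun i =>
        (gc_snd (gc_li (b i))).mul (gc_path (gD i) hs₀.le)
      have e2 : ∫ p, F' s₀ p ∂P = (∫ p : E × E, dt (s₀ • p.1 + Real.sqrt s₀ • p.2) ∂P) +
          ((∑ i, ∫ p : E × E, li (b i) p.1 *
            D (b i) (G s₀) (s₀ • p.1 + Real.sqrt s₀ • p.2) ∂P) +
          (1 / (2 * Real.sqrt s₀)) * ∑ i, ∫ p : E × E, li (b i) p.2 *
            D (b i) (G s₀) (s₀ • p.1 + Real.sqrt s₀ • p.2) ∂P) := by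
        rw [integral_congr_ae (Eventually.of_forall e1)]
        exact dyn_lin3 (gc_int_prod hU g1) (fun i => gc_int_prod hU (g2 i))
          (fun i => gc_int_prod hU (g3 i))
      have e3 : ∀ i, ∫ p : E × E, li (b i) p.1 *
          D (b i) (G s₀) (s₀ • p.1 + Real.sqrt s₀ • p.2) ∂P =
          ∫ p : E × E, pm U s₀ (s₀ • p.1 + Real.sqrt s₀ • p.2) (li (b i)) *
            D (b i) (G s₀) (s₀ • p.1 + Real.sqrt s₀ • p.2) ∂P := by
        intro i
        rw [← EX_prod_mul hU (gD i) (gc_li (b i)) hs₀.le, hB6 _ _ (gD i) (gc_li (b i)),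
          EX_prod hU ((gD i).mul (gpm i)) hs₀.le]
        refine integral_congr_ae (Eventually.of_forall fun p => ?_)
        exact mul_comm _ _
      have e4 : ∀ i, ∫ p : E × E, li (b i) p.2 *
          D (b i) (G s₀) (s₀ • p.1 + Real.sqrt s₀ • p.2) ∂P = Real.sqrt s₀ *
          ∫ p : E × E, D (b i) (D (b i) (G s₀)) (s₀ • p.1 + Real.sqrt s₀ • p.2) ∂P := by
        intro i
        rw [integral_prod _ (gc_int_prod hU (g3 i)),
          integral_prod _ (gc_int_prod hU (gc_path (gDD i) hs₀.le)), ← integral_const_mul]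
        refine integral_congr_ae (Eventually.of_forall fun x => ?_)
        show ∫ g, li (b i) g * D (b i) (G s₀) (s₀ • x + Real.sqrt s₀ • g) ∂(mu (gp (E := E))) =
          Real.sqrt s₀ * ∫ g, D (b i) (D (b i) (G s₀)) (s₀ • x + Real.sqrt s₀ • g)
            ∂(mu (gp (E := E)))
        rw [← integral_const_mul]
        have k1 : GC (fun g : E => D (b i) (G s₀) (s₀ • x + Real.sqrt s₀ • g)) :=
          gc_fix (gc_path (gD i) hs₀.le) x
        have k2 : GC (fun g : E => Real.sqrt s₀ *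
            D (b i) (D (b i) (G s₀)) (s₀ • x + Real.sqrt s₀ • g)) :=
          (GC.const _).mul (gc_fix (gc_path (gDD i) hs₀.le) x)
        apply gauss_ibp k1 k2
        intro g
        have k3 : ContDiff ℝ 1 (D (b i) (G s₀)) :=
          (hG2.fderiv_right (m := 1) (by norm_num)).clm_apply contDiff_const
        have k4 : HasFDerivAt (D (b i) (G s₀))
            (fderiv ℝ (D (b i) (G s₀)) (s₀ • x + Real.sqrt s₀ • g))
            (s₀ • x + Real.sqrt s₀ • g) :=
          (k3.differentiable (by norm_num) _).hasFDerivAt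
        have k5 : HasFDerivAt (fun g : E => s₀ • x + Real.sqrt s₀ • g)
            (Real.sqrt s₀ • ContinuousLinearMap.id ℝ E) g :=
          ((hasFDerivAt_id g).const_smul (Real.sqrt s₀)).const_add (s₀ • x)
        have k6 := (k4.comp g k5).hasLineDerivAt (b i)
        have k7 : ((fderiv ℝ (D (b i) (G s₀)) (s₀ • x + Real.sqrt s₀ • g)).comp
            (Real.sqrt s₀ • ContinuousLinearMap.id ℝ E)) (b i) =
            Real.sqrt s₀ * D (b i) (D (b i) (G s₀)) (s₀ • x + Real.sqrt s₀ • g) := by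
          simp only [ContinuousLinearMap.comp_apply, smul_apply,
            ContinuousLinearMap.id_apply, map_smul, smul_eq_mul]
          rfl
        rw [k7] at k6
        exact k6
      have ggen : GC (gen b U G s₀) := by
        have h1 : gen b U G s₀ = fun θ => dt θ + ((∑ i, pm U s₀ θ (li (b i)) *
            D (b i) (G s₀) θ) + (1 / 2) * ∑ i, D (b i) (D (b i) (G s₀)) θ) := by
          ext θ
          unfold gen
          rw [rg_deriv hG hs₀]
          show _ = fderiv ℝ (Function.uncurry G) (s₀, θ) (1, 0) + _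
          ring
        rw [h1]
        exact gdt.add ((GC.sum fun i => (gpm i).mul (gD i)).add
          ((GC.const (1 / 2)).mul (GC.sum fun i => gDD i)))
      rw [EX_prod hU ggen hs₀.le, e2]
      have e5 : ∀ p : E × E, gen b U G s₀ (s₀ • p.1 + Real.sqrt s₀ • p.2) =
          dt (s₀ • p.1 + Real.sqrt s₀ • p.2) +
          ((∑ i, pm U s₀ (s₀ • p.1 + Real.sqrt s₀ • p.2) (li (b i)) *
            D (b i) (G s₀) (s₀ • p.1 + Real.sqrt s₀ • p.2)) + (1 / 2) *
          ∑ i, D (b i) (D (b i) (G s₀)) (s₀ • p.1 + Real.sqrt s₀ • p.2)) := by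
        intro p
        unfold gen
        rw [rg_deriv hG hs₀]
        show _ = fderiv ℝ (Function.uncurry G) (s₀, s₀ • p.1 + Real.sqrt s₀ • p.2) (1, 0) + _
        ring
      have g4 : ∀ i, GC (fun p : E × E => pm U s₀ (s₀ • p.1 + Real.sqrt s₀ • p.2) (li (b i)) *
            D (b i) (G s₀) (s₀ • p.1 + Real.sqrt s₀ • p.2)) := fun i =>
        (gc_path (gpm i) hs₀.le).mul (gc_path (gD i) hs₀.le)
      have g5 : ∀ i, GC (fun p : E × E =>
          D (b i) (D (b i) (G s₀)) (s₀ • p.1 + Real.sqrt s₀ • p.2)) := fun i =>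
        gc_path (gDD i) hs₀.le
      rw [integral_congr_ae (Eventually.of_forall e5)]
      rw [dyn_lin3 (gc_int_prod hU g1) (fun i => gc_int_prod hU (g4 i))
          (fun i => gc_int_prod hU (g5 i))]
      rw [Finset.sum_congr rfl fun i _ => e3 i, Finset.sum_congr rfl fun i _ => e4 i,
        ← Finset.mul_sum, ← mul_assoc]
      have h9 : 1 / (2 * Real.sqrt s₀) * Real.sqrt s₀ = 1 / 2 := by
        have := (Real.sqrt_pos.2 hs₀).ne'
        field_simp
      rw [h9]
    rw [← hval]
    exact hder.congr_of_eventuallyEq heq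
  · intro s₀ hs₀
    have hs₀' : (0:ℝ) ≤ s₀ := hs₀
    obtain ⟨A, B, hA, hB, hAB⟩ := rg_bound hG (s₀ + 1)
    -- the bound at zero
    have hAB0 : ∀ r ∈ Icc (0:ℝ) (s₀ + 1), ∀ θ : E, |G r θ| ≤ A * Real.exp (B * ‖θ‖) := by
      intro r hr θ
      rcases hr.1.eq_or_lt with h0 | h0
      · subst h0
        have h1 : ContinuousWithinAt (Function.uncurry G) (Ici 0 ×ˢ univ) ((0:ℝ), θ) :=
          hG.cont _ ⟨show (0:ℝ) ≤ 0 from le_rfl, mem_univ _⟩
        have h2 : Tendsto (fun r : ℝ => ((r, θ) : ℝ × E)) (𝓝[>] 0)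
            (𝓝[Ici 0 ×ˢ univ] ((0:ℝ), θ)) := by
          apply tendsto_nhdsWithin_of_tendsto_nhds_of_eventually_within
          · exact ((continuous_id.prodMk continuous_const).tendsto' (0:ℝ) (((0:ℝ), θ) : ℝ × E)
              rfl).mono_left nhdsWithin_le_nhds
          · filter_upwards [self_mem_nhdsWithin] with r hr
            exact ⟨show (0:ℝ) ≤ r from le_of_lt hr, mem_univ _⟩
        have h3 : Tendsto (fun r : ℝ => |G r θ|) (𝓝[>] 0) (𝓝 |G 0 θ|) :=
          (h1.tendsto.comp h2).abs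
        refine le_of_tendsto h3 ?_
        filter_upwards [Ioc_mem_nhdsGT (show (0:ℝ) < s₀ + 1 by linarith)] with r hr
        exact (hAB r hr θ).1
      · exact (hAB r ⟨h0, hr.2⟩ θ).1
    have hGc : ∀ r : ℝ, 0 ≤ r → Continuous (G r) := by
      intro r hr
      exact hG.cont.comp_continuous (Continuous.prodMk_right r) (fun θ => ⟨hr, mem_univ _⟩)
    have hGgc : ∀ r ∈ Icc (0:ℝ) (s₀ + 1), GC (G r) := fun r hr =>
      ⟨hGc r hr.1, A, B, hAB0 r hr⟩
    set S : ℝ := s₀ + 1 with hS
    set K : ℝ := B * (S + Real.sqrt S) with hK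
    have hS0 : 0 ≤ S := by linarith
    have hK0 : 0 ≤ K := mul_nonneg hB (add_nonneg hS0 (Real.sqrt_nonneg S))
    have hnear : ∀ᶠ r in 𝓝[Ici 0] s₀, r ∈ Icc (0:ℝ) S := by
      have h1 : Iic S ∈ 𝓝 s₀ := Iic_mem_nhds (by rw [hS]; linarith)
      filter_upwards [mem_nhdsWithin_of_mem_nhds h1, self_mem_nhdsWithin] with r h2 h3
      exact ⟨h3, h2⟩
    have hcw : ContinuousWithinAt
        (fun r => ∫ p : E × E, G r (r • p.1 + Real.sqrt r • p.2) ∂P) (Ici 0) s₀ := by
      apply continuousWithinAt_of_dominated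
        (bound := fun p : E × E => A * Real.exp (K * (‖p.1‖ + ‖p.2‖)))
      · filter_upwards [hnear] with r hr
        exact ((hGc r hr.1).comp (cont_path r)).aestronglyMeasurable
      · filter_upwards [hnear] with r hr
        refine Eventually.of_forall fun p => ?_
        rw [Real.norm_eq_abs]
        refine (hAB0 r hr _).trans ?_
        apply mul_le_mul_of_nonneg_left _ hA
        apply Real.exp_le_exp.2
        rw [hK, mul_assoc]
        apply mul_le_mul_of_nonneg_left _ hB
        have h3 : r + Real.sqrt r ≤ S + Real.sqrt S :=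
          add_le_add hr.2 (Real.sqrt_le_sqrt hr.2)
        refine (norm_path hr.1 p).trans (mul_le_mul_of_nonneg_right h3 ?_)
        positivity
      · exact gc_int_prod hU ((GC.const A).mul (gc_exp_norm hK0))
      · refine Eventually.of_forall fun p => ?_
        have h1 : ContinuousWithinAt (Function.uncurry G) (Ici 0 ×ˢ univ)
            (s₀, s₀ • p.1 + Real.sqrt s₀ • p.2) := hG.cont _ ⟨hs₀', mem_univ _⟩
        have h2 : Continuous (fun r : ℝ => ((r, r • p.1 + Real.sqrt r • p.2) : ℝ × E)) :=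
          continuous_id.prodMk ((continuous_id.smul continuous_const).add
            (Real.continuous_sqrt.smul continuous_const))
        exact ContinuousWithinAt.comp (g := Function.uncurry G)
          (f := fun r : ℝ => ((r, r • p.1 + Real.sqrt r • p.2) : ℝ × E)) (x := s₀)
          h1 h2.continuousWithinAt (fun r hr => ⟨hr, mem_univ _⟩)
    refine hcw.congr_of_eventuallyEq ?_ ?_
    · filter_upwards [hnear] with r hr
      exact EX_prod hU (hGgc r hr) hr.1
    · exact EX_prod hU (hGgc s₀ ⟨hs₀', by rw [hS]; linarith⟩) hs₀'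
  · unfold EX
    simp

end Pool.Agent.H85.KG
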