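import Pool.Agent.H85.KG.PMB
import Pool.Agent.H14.KL.CONC
import Pool.Agent.H14.KL.PLM

/-!
# Module PMG: growth of the posterior means
-/

set_option autoImplicit false

open MeasureTheory Set Filter Topology
open scoped ContDiff

namespace Pool.Agent.H85.KG

open Pool.Agent.H84 Pool.Agent.H84.Sym Pool.Agent.H84.Sym.P2x Pool.Agent.H19.KL
open Pool.Agent.H84.Sym.C29 Pool.Agent.H84.Sym.P6
open Pool.Agent.H73.KG

theorem pmg_thm (E : Type) [NormedAddCommGroup E] [InnerProductSpace ℝ E]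
    [FiniteDimensional ℝ E] [MeasurableSpace E] [BorelSpace E] (hBAS : BASStmt E)
    (hZSM : ZSMStmt E) : PMGStmt E := by
  intro U t hPP F hF S
  obtain ⟨⟨C, hU⟩, hprob⟩ := hPP
  obtain ⟨-, -, -, hB4, hB5, -, -⟩ := hBAS
  have ht := hU.pos
  have hCON := con_thm E (plm_thm E)
  obtain ⟨A, B, hA, hB, hAB⟩ := Gr.norm hF.2
  have hlip : ∀ k : ℝ, 0 ≤ k → ∀ x y : E, |k * ‖x‖ - k * ‖y‖| ≤ k * ‖x - y‖ := by
    intro k hk x y
    rw [← mul_sub, abs_mul, abs_of_nonneg hk]
    exact mul_le_mul_of_nonneg_left (abs_norm_sub_norm_le x y) hk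
  have hcont : ∀ k : ℝ, Continuous (fun x : E => k * ‖x‖) := fun k =>
    continuous_const.mul continuous_norm
  set X : E → ℝ := fun x => Real.exp (B * ‖x‖) with hXdef
  have hX : GC X := con_gc (hcont B) (hlip B hB)
  have hXm : GC (fun x : E => Real.exp (-(B * ‖x‖))) :=
    (hCON _ _ _ hU _ B (hcont B) hB (hlip B hB)).2.1
  have hX1 : ∀ x, 1 ≤ X x := fun x => Real.one_le_exp (by positivity)
  set Γ : ℝ := Real.exp ((2 * B) ^ 2 / t) with hΓ
  have hΓ0 : 0 < Γ := Real.exp_pos _
  set ℓ : ℝ := Real.sqrt (Γ / t) with hℓ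
  have hℓ0 : 0 ≤ ℓ := Real.sqrt_nonneg _
  -- the bound in the natural parameter
  have main : ∀ s : ℝ, 0 ≤ s → ∀ θ : E, pm U s θ X ≤ pm U s 0 X * Real.exp (ℓ * ‖θ‖) := by
    intro s hs
    have hXge : ∀ θ, 1 ≤ pm U s θ X := fun θ => by
      have := pm_mono hU hs θ (GC.const (H := E) 1) hX hX1
      rwa [pm_const hU hs] at this
    have hpos : ∀ θ, 0 < pm U s θ X := fun θ => lt_of_lt_of_le one_pos (hXge θ)
    have hPPs : ∀ θ, PP (pw U s θ) (t + s) := fun θ => ⟨pw_pot hU hs θ, prob_pw hU hs θ⟩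
    have hrev : ∀ θ, pm U s θ (fun x => X x ^ 2) ≤ Γ * pm U s θ X ^ 2 := by
      intro θ
      obtain ⟨C', hp⟩ := pw_pot hU hs θ
      obtain ⟨c1, c2, c3⟩ := hCON _ _ _ hp (fun x => 2 * B * ‖x‖) (2 * B) (hcont _)
        (by positivity) (hlip _ (by positivity))
      have e1 : (fun x : E => Real.exp (2 * B * ‖x‖)) = fun x => X x ^ 2 := by
        funext x
        rw [hXdef, ← Real.exp_nat_mul]
        congr 1
        push_cast
        ring
      have e2 : (fun x : E => Real.exp (-(2 * B * ‖x‖))) =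
          fun x => Real.exp (-(B * ‖x‖)) ^ 2 := by
        funext x
        rw [← Real.exp_nat_mul]
        congr 1
        push_cast
        ring
      have := prob_pw hU hs θ
      rw [int_pw hU hs, int_pw hU hs, e1, e2] at c3
      simp only [probReal_univ, one_pow, mul_one] at c3
      have c4 : Real.exp ((2 * B) ^ 2 / (t + s)) ≤ Γ := by
        apply Real.exp_le_exp.2
        apply div_le_div_of_nonneg_left (sq_nonneg _) ht
        linarith
      have c5 := c3.trans c4
      set a := pm U s θ (fun x => X x ^ 2) with ha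
      set b := pm U s θ (fun x => Real.exp (-(B * ‖x‖)) ^ 2) with hb
      set m := pm U s θ X with hm
      set n := pm U s θ (fun x => Real.exp (-(B * ‖x‖))) with hn
      have a0 : 0 ≤ a := pm_nonneg hU hs θ fun x => sq_nonneg _
      have b0 : 0 ≤ b := pm_nonneg hU hs θ fun x => sq_nonneg _
      have m0 : 0 < m := hpos θ
      have hnb : n ^ 2 ≤ b := by
        have h1 := (hB4 _ _ (hPPs θ) _ _ hXm hXm).2.1
        rw [cv_pw hU hs] at h1
        have e4 : (fun x : E => Real.exp (-(B * ‖x‖)) * Real.exp (-(B * ‖x‖))) =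
            fun x => Real.exp (-(B * ‖x‖)) ^ 2 := by
          funext x
          ring
        rw [e4, ← hb, ← hn] at h1
        nlinarith
      have hmn : 1 ≤ m * n := by
        have k1 := pm_nonneg hU hs θ (F := fun x => (m⁻¹ * X x - 1) ^ 2 * Real.exp (-(B * ‖x‖)))
          (fun x => mul_nonneg (sq_nonneg _) (Real.exp_pos _).le)
        have e3 : (fun x => (m⁻¹ * X x - 1) ^ 2 * Real.exp (-(B * ‖x‖))) =
            fun x => (m⁻¹) ^ 2 * X x + ((-2 * m⁻¹) + Real.exp (-(B * ‖x‖))) := by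
          funext x
          have : X x * Real.exp (-(B * ‖x‖)) = 1 := by
            rw [hXdef, ← Real.exp_add]
            simp
          have e4 : X x ^ 2 * Real.exp (-(B * ‖x‖)) = X x := by
            rw [pow_two, mul_assoc, this, mul_one]
          calc _ = (m⁻¹) ^ 2 * (X x ^ 2 * Real.exp (-(B * ‖x‖))) -
              2 * m⁻¹ * (X x * Real.exp (-(B * ‖x‖))) + Real.exp (-(B * ‖x‖)) := by ring
            _ = _ := by rw [e4, this]; ring
        rw [e3, pm_add hU hs θ ((GC.const (H := E) _).mul hX) ((GC.const (H := E) _).add hXm),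
          pm_add hU hs θ (GC.const (H := E) _) hXm, pm_const_mul hU hs, pm_const hU hs, ← hm,
          ← hn] at k1
        have e5 : m⁻¹ ^ 2 * m = m⁻¹ := by field_simp
        rw [e5] at k1
        have k2 : m⁻¹ ≤ n := by linarith
        calc (1:ℝ) = m * m⁻¹ := (mul_inv_cancel₀ m0.ne').symm
          _ ≤ m * n := mul_le_mul_of_nonneg_left k2 m0.le
      have hmn2 : 1 ≤ m ^ 2 * b := by
        calc (1:ℝ) ≤ (m * n) ^ 2 := one_le_pow₀ hmn
          _ = m ^ 2 * n ^ 2 := by ring
          _ ≤ m ^ 2 * b := by gcongr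
      calc a = a * 1 := (mul_one a).symm
        _ ≤ a * (m ^ 2 * b) := mul_le_mul_of_nonneg_left hmn2 a0
        _ = (a * b) * m ^ 2 := by ring
        _ ≤ Γ * m ^ 2 := by gcongr
    set L : E → ℝ := fun θ => Real.log (pm U s θ X) with hL
    have hLd : ∀ θ, ∃ M : E →L[ℝ] ℝ, HasFDerivAt L M θ ∧ ‖M‖ ≤ ℓ := by
      intro θ
      obtain ⟨M, hM, hM'⟩ := pm_fderiv hZSM hU hX hs θ
      refine ⟨(pm U s θ X)⁻¹ • M, hM.log (hpos θ).ne', ?_⟩
      refine ContinuousLinearMap.opNorm_le_bound _ hℓ0 fun w => ?_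
      rw [smul_apply, smul_eq_mul, norm_mul, norm_inv, Real.norm_eq_abs, Real.norm_eq_abs,
        abs_of_pos (hpos θ), inv_mul_le_iff₀ (hpos θ), hM']
      obtain ⟨hc, -, -, -⟩ := hB4 _ _ (hPPs θ) X (li w) hX (gc_lin w)
      have hc0 := (hB4 _ _ (hPPs θ) (li w) (li w) (gc_lin w) (gc_lin w)).2.1
      have hv := hB5 _ _ (hPPs θ) w
      have hv' : cv (pw U s θ) (li w) (li w) ≤ ‖w‖ ^ 2 / t := by
        refine hv.trans ?_
        rw [one_div, inv_mul_eq_div]
        apply div_le_div_of_nonneg_left (sq_nonneg _) ht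
        linarith
      have hx : cv (pw U s θ) X X ≤ Γ * pm U s θ X ^ 2 := by
        rw [cv_pw hU hs]
        have e4 : (fun x : E => X x * X x) = fun x => X x ^ 2 := by
          funext x
          ring
        rw [e4]
        have := hrev θ
        nlinarith [sq_nonneg (pm U s θ X)]
      refine abs_le_of_sq_le_sq ?_ (by have := (hpos θ).le; positivity)
      have e1 : (pm U s θ X * (ℓ * ‖w‖)) ^ 2 = (Γ * pm U s θ X ^ 2) * (‖w‖ ^ 2 / t) := by
        rw [hℓ, mul_pow, mul_pow, Real.sq_sqrt (by positivity)]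
        ring
      rw [e1]
      exact hc.trans (mul_le_mul hx hv' hc0 (by positivity))
    intro θ
    have hl := Convex.norm_image_sub_le_of_norm_fderiv_le (𝕜 := ℝ) (f := L) (s := Set.univ)
      (C := ℓ) (x := 0) (y := θ) (fun x _ => by
        obtain ⟨M, hM, -⟩ := hLd x
        exact hM.differentiableAt)
      (fun x _ => by
        obtain ⟨M, hM, hM'⟩ := hLd x
        rw [hM.fderiv]
        exact hM') convex_univ (Set.mem_univ _) (Set.mem_univ _)
    rw [sub_zero, Real.norm_eq_abs] at hl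
    have hl2 : L θ ≤ L 0 + ℓ * ‖θ‖ := by linarith [(abs_le.1 hl).2]
    have := Real.exp_le_exp.2 hl2
    rwa [Real.exp_add, hL, Real.exp_log (hpos θ), Real.exp_log (hpos 0)] at this
  -- the bound at zero
  have hc0 : ContinuousOn (fun s : ℝ => pm U s 0 X) (Icc 0 S) := by
    have h1 := pm_cont hZSM hU hX
    exact h1.comp (f := fun s : ℝ => ((s, 0) : ℝ × E))
      (continuous_id.prodMk continuous_const).continuousOn
      (fun s hs => ⟨hs.1, mem_univ _⟩)
  obtain ⟨M, hM⟩ := isCompact_Icc.exists_bound_of_continuousOn hc0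
  refine ⟨A * M, ℓ, fun s hs θ => ?_⟩
  have hs0 : 0 ≤ s := hs.1
  have h1 := main s hs0 θ
  have h2 : pm U s 0 X ≤ M := (le_abs_self _).trans (hM s hs)
  have g : GC (fun x => A * X x) := (GC.const (H := E) A).mul hX
  have u1 : pm U s θ F ≤ pm U s θ (fun x => A * X x) :=
    pm_mono hU hs0 θ hF g (fun x => (le_abs_self _).trans (hAB x))
  have u2 : pm U s θ (fun x => -(A * X x)) ≤ pm U s θ F :=
    pm_mono hU hs0 θ g.neg hF (fun x => neg_le_of_neg_le ((neg_le_abs _).trans (hAB x)))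
  have u3 : pm U s θ (fun x => -(A * X x)) = -(A * pm U s θ X) := by
    have e : (fun x => -(A * X x)) = fun x => (-A) * X x := by funext x; ring
    rw [e, pm_const_mul hU hs0]
    ring
  rw [pm_const_mul hU hs0] at u1
  rw [u3] at u2
  calc |pm U s θ F| ≤ A * pm U s θ X := abs_le.2 ⟨u2, u1⟩
    _ ≤ A * (pm U s 0 X * Real.exp (ℓ * ‖θ‖)) := mul_le_mul_of_nonneg_left h1 hA
    _ ≤ A * (M * Real.exp (ℓ * ‖θ‖)) := by gcongr
    _ = _ := by ring

end Pool.Agent.H85.KG
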