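import Pool.Agent.H85.KG.PMB

/-!
# Module RGP: the posterior means are regular
-/

set_option autoImplicit false

open MeasureTheory Set Filter Topology
open scoped ContDiff

namespace Pool.Agent.H85.KG

open Pool.Agent.H84 Pool.Agent.H84.Sym Pool.Agent.H84.Sym.P2x Pool.Agent.H19.KL
open Pool.Agent.H84.Sym.C29 Pool.Agent.H84.Sym.P6
open Pool.Agent.H73.KG

/-- exponential growth in `θ`, uniformly in `s ∈ (0, S]` -/
def Bd {E : Type} [NormedAddCommGroup E] (f : ℝ × E → ℝ) : Prop :=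
  ∀ S : ℝ, ∃ A B : ℝ, 0 ≤ A ∧ 0 ≤ B ∧ ∀ s ∈ Ioc 0 S, ∀ θ : E,
    |f (s, θ)| ≤ A * Real.exp (B * ‖θ‖)

section bd

variable {E : Type} [NormedAddCommGroup E]

theorem Bd.of_le {f g : ℝ × E → ℝ} (hg : Bd g) (h : ∀ s θ, 0 < s → |f (s, θ)| ≤ |g (s, θ)|) :
    Bd f := by
  intro S
  obtain ⟨A, B, hA, hB, hAB⟩ := hg S
  exact ⟨A, B, hA, hB, fun s hs θ => (h s θ hs.1).trans (hAB s hs θ)⟩

theorem Bd.const (c : ℝ) : Bd (fun _ : ℝ × E => c) := by
  intro S
  refine ⟨|c|, 0, abs_nonneg _, le_rfl, fun s _ θ => ?_⟩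
  simp

theorem Bd.add {f g : ℝ × E → ℝ} (hf : Bd f) (hg : Bd g) : Bd (fun p => f p + g p) := by
  intro S
  obtain ⟨A, B, hA, hB, h⟩ := hf S
  obtain ⟨A', B', hA', hB', h'⟩ := hg S
  refine ⟨A + A', B + B', by positivity, by positivity, fun s hs θ => (abs_add_le _ _).trans ?_⟩
  have e1 : Real.exp (B * ‖θ‖) ≤ Real.exp ((B + B') * ‖θ‖) :=
    Real.exp_le_exp.2 (mul_le_mul_of_nonneg_right (by linarith) (norm_nonneg θ))
  have e2 : Real.exp (B' * ‖θ‖) ≤ Real.exp ((B + B') * ‖θ‖) :=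
    Real.exp_le_exp.2 (mul_le_mul_of_nonneg_right (by linarith) (norm_nonneg θ))
  rw [add_mul A A']
  exact add_le_add ((h s hs θ).trans (mul_le_mul_of_nonneg_left e1 hA))
    ((h' s hs θ).trans (mul_le_mul_of_nonneg_left e2 hA'))

theorem Bd.neg {f : ℝ × E → ℝ} (hf : Bd f) : Bd (fun p => -f p) :=
  hf.of_le fun s θ _ => by rw [abs_neg]

theorem Bd.abs {f : ℝ × E → ℝ} (hf : Bd f) : Bd (fun p => |f p|) :=
  hf.of_le fun s θ _ => by rw [abs_abs]

theorem Bd.sub {f g : ℝ × E → ℝ} (hf : Bd f) (hg : Bd g) : Bd (fun p => f p - g p) := by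
  simpa only [sub_eq_add_neg] using hf.add hg.neg

theorem Bd.mul {f g : ℝ × E → ℝ} (hf : Bd f) (hg : Bd g) : Bd (fun p => f p * g p) := by
  intro S
  obtain ⟨A, B, hA, hB, h⟩ := hf S
  obtain ⟨A', B', hA', hB', h'⟩ := hg S
  refine ⟨A * A', B + B', by positivity, by positivity, fun s hs θ => ?_⟩
  rw [abs_mul]
  refine (mul_le_mul (h s hs θ) (h' s hs θ) (abs_nonneg _) (by positivity)).trans (le_of_eq ?_)
  rw [add_mul, Real.exp_add]
  ring

theorem Bd.sum {κ : Type} (s : Finset κ) {f : κ → ℝ × E → ℝ} (hf : ∀ i, Bd (f i)) :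
    Bd (fun p => ∑ i ∈ s, f i p) := by
  classical
  induction s using Finset.induction_on with
  | empty => simpa using Bd.const (E := E) 0
  | insert a s ha ih =>
    have h := (hf a).add ih
    simpa only [Finset.sum_insert ha] using h

end bd

section gen

variable {V : Type} [NormedAddCommGroup V] [NormedSpace ℝ V] {κ : Type} [Fintype κ]

theorem norm_lin_le (g : κ → ℝ) (e : κ → V →L[ℝ] ℝ) :
    ‖∑ j, g j • e j‖ ≤ ∑ j, |g j| * ‖e j‖ := by
  refine (norm_sum_le _ _).trans (Finset.sum_le_sum fun j _ => ?_)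
  rw [norm_smul, Real.norm_eq_abs]

theorem norm_three_le (A B C : V →L[ℝ] ℝ) (x y : ℝ) :
    ‖A - (x • B + y • C)‖ ≤ ‖A‖ + (|x| * ‖B‖ + |y| * ‖C‖) := by
  have h0 : ‖A - (x • B + y • C)‖ ≤ ‖A‖ + ‖x • B + y • C‖ := norm_sub_le A (x • B + y • C)
  have h : ‖x • B + y • C‖ ≤ ‖x • B‖ + ‖y • C‖ := norm_add_le _ _
  rw [norm_smul, norm_smul, Real.norm_eq_abs, Real.norm_eq_abs] at h
  linarith

theorem abs_norm_clm (A : V →L[ℝ] ℝ) : |‖A‖| = ‖A‖ := abs_of_nonneg (norm_nonneg A)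

/-- a bound of the second derivative -/
theorem iter2_bound {f : V → ℝ} {g : κ → V → ℝ} {g' : κ → V → (V →L[ℝ] ℝ)}
    {e : κ → V →L[ℝ] ℝ} {Ω : Set V} (hΩ : IsOpen Ω)
    (hf : ∀ p ∈ Ω, HasFDerivAt f (∑ j, g j p • e j) p)
    (hg : ∀ p ∈ Ω, ∀ j, HasFDerivAt (g j) (g' j p) p) {p : V} (hp : p ∈ Ω) :
    ‖iteratedFDeriv ℝ 2 f p‖ ≤ ∑ j, ‖g' j p‖ * ‖e j‖ := by
  have e1 : fderiv ℝ f =ᶠ[𝓝 p] fun p => ∑ j, g j p • e j := by
    filter_upwards [hΩ.mem_nhds hp] with q hq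
    exact (hf q hq).fderiv
  have e2 : ‖iteratedFDeriv ℝ 2 f p‖ = ‖fderiv ℝ (fderiv ℝ f) p‖ := by
    rw [← norm_iteratedFDeriv_one, norm_iteratedFDeriv_fderiv]
  have e3 : HasFDerivAt (fun p => ∑ j, g j p • e j) (∑ j, (g' j p).smulRight (e j)) p :=
    HasFDerivAt.fun_sum fun j _ => (hg p hp j).smul_const (e j)
  rw [e2, e1.fderiv_eq, e3.fderiv]
  refine (norm_sum_le (E := V →L[ℝ] V →L[ℝ] ℝ) _ _).trans (Finset.sum_le_sum fun j _ => ?_)
  rw [ContinuousLinearMap.norm_smulRight_apply]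

end gen

variable {E : Type} [NormedAddCommGroup E] [InnerProductSpace ℝ E]

/-- `- |x|² / 2` -/
noncomputable def qf (x : E) : ℝ := -(‖x‖ ^ 2 / 2)

theorem gc_qf : GC (qf (E := E)) := by
  have h : GC (fun x : E => (-(1 / 2)) * ‖x‖ ^ 2) := (GC.const _).mul gc_nrm.sq
  have e : (fun x : E => (-(1 / 2)) * ‖x‖ ^ 2) = qf := by
    funext x
    unfold qf
    ring
  rwa [e] at h

variable [FiniteDimensional ℝ E] [MeasurableSpace E] [BorelSpace E]

theorem ZF_add {U : E → ℝ} {t C : ℝ} (hU : Pot U t C) {s : ℝ} (hs : 0 ≤ s) (θ : E)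
    {F G : E → ℝ} (hF : GC F) (hG : GC G) :
    ZF U s θ (fun x => F x + G x) = ZF U s θ F + ZF U s θ G := by
  obtain ⟨C', h⟩ := tp_pot hU hs θ
  rw [ZF_eq hU hs, ZF_eq hU hs, ZF_eq hU hs]
  exact integral_add (hF.integrable h) (hG.integrable h)

theorem ZF_const_mul {U : E → ℝ} {t C : ℝ} (hU : Pot U t C) {s : ℝ} (hs : 0 ≤ s) (θ : E)
    (c : ℝ) (F : E → ℝ) : ZF U s θ (fun x => c * F x) = c * ZF U s θ F := by
  rw [ZF_eq hU hs, ZF_eq hU hs, integral_const_mul]

theorem ZF_sum {U : E → ℝ} {t C : ℝ} (hU : Pot U t C) {s : ℝ} (hs : 0 ≤ s) (θ : E)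
    {κ : Type} (S : Finset κ) {F : κ → E → ℝ} (hF : ∀ i, GC (F i)) :
    ZF U s θ (fun x => ∑ i ∈ S, F i x) = ∑ i ∈ S, ZF U s θ (F i) := by
  obtain ⟨C', h⟩ := tp_pot hU hs θ
  rw [ZF_eq hU hs, integral_finsetSum _ fun i _ => (hF i).integrable h]
  exact Finset.sum_congr rfl fun i _ => (ZF_eq hU hs θ (F i)).symm

section der

variable {ι : Type} [Fintype ι] (b : OrthonormalBasis ι ℝ E)

/-- the test functions -/
noncomputable def fj : Option ι → E → ℝ
  | none => qf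
  | some i => li (b i)

/-- the dual basis -/
noncomputable def ej : Option ι → (ℝ × E →L[ℝ] ℝ)
  | none => ContinuousLinearMap.fst ℝ ℝ E
  | some i => (innerSL ℝ (b i)).comp (ContinuousLinearMap.snd ℝ ℝ E)

omit [FiniteDimensional ℝ E] [MeasurableSpace E] [BorelSpace E] in
theorem gc_fj (j : Option ι) : GC (fj b j) := by
  cases j with
  | none => exact gc_qf
  | some i => exact gc_lin (b i)

/-- the coefficients of the derivative of the posterior mean -/
noncomputable def gj (U F : E → ℝ) (j : Option ι) (p : ℝ × E) : ℝ :=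
  pm U p.1 p.2 (fun x => F x * fj b j x) - pm U p.1 p.2 F * pm U p.1 p.2 (fj b j)

/-- the derivative of the posterior mean -/
noncomputable def DL (U F : E → ℝ) (p : ℝ × E) : ℝ × E →L[ℝ] ℝ := ∑ j, gj b U F j p • ej b j

theorem ZF_tot (hZSM : ZSMStmt E) {U : E → ℝ} {t C : ℝ} (hU : Pot U t C) {F : E → ℝ}
    (hF : GC F) {s : ℝ} (hs : 0 ≤ s) (θ : E) :
    ∃ L : ℝ × E →L[ℝ] ℝ, HasFDerivAt (fun p : ℝ × E => ZF U p.1 p.2 F) L (s, θ) ∧
      ∀ p, L p = ∑ j, ZF U s θ (fun x => F x * fj b j x) * ej b j p := by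
  obtain ⟨h1, h2⟩ := hZSM U t C hU F hF
  have hpos := hU.pos
  have hmem : (Ioi (-t) ×ˢ (univ : Set E)) ∈ 𝓝 ((s, θ) : ℝ × E) :=
    (isOpen_Ioi.prod isOpen_univ).mem_nhds ⟨show -t < s by linarith, mem_univ _⟩
  have h3 : HasFDerivAt (fun p : ℝ × E => ZF U p.1 p.2 F)
      (fderiv ℝ (fun p : ℝ × E => ZF U p.1 p.2 F) (s, θ)) (s, θ) :=
    ((h1.contDiffAt hmem).differentiableAt (by simp)).hasFDerivAt
  refine ⟨_, h3, fun p => ?_⟩
  obtain ⟨σ, η⟩ := p
  rw [h2 s θ (by linarith) σ η]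
  have e1 : (fun x : E => F x * (inner ℝ η x - σ * ‖x‖ ^ 2 / 2)) =
      fun x => ∑ j, ej b j (σ, η) * (F x * fj b j x) := by
    funext x
    have e2 := b.sum_inner_mul_inner η x
    rw [Fintype.sum_option]
    have e3 : ∑ i, ej b (some i) (σ, η) * (F x * fj b (some i) x) = F x * inner ℝ η x := by
      rw [← e2, Finset.mul_sum]
      refine Finset.sum_congr rfl fun i _ => ?_
      show inner ℝ (b i) η * (F x * inner ℝ (b i) x) = _
      rw [real_inner_comm η (b i)]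
      ring
    rw [e3]
    show _ = σ * (F x * qf x) + _
    unfold qf
    ring
  have g : ∀ j, GC (fun x : E => ej b j (σ, η) * (F x * fj b j x)) := fun j =>
    (GC.const _).mul (hF.mul (gc_fj b j))
  rw [e1, ZF_sum hU hs θ _ g]
  refine Finset.sum_congr rfl fun j _ => ?_
  rw [ZF_const_mul hU hs, mul_comm]

theorem pm_tot (hZSM : ZSMStmt E) {U : E → ℝ} {t C : ℝ} (hU : Pot U t C) {F : E → ℝ}
    (hF : GC F) {s : ℝ} (hs : 0 ≤ s) (θ : E) :
    HasFDerivAt (fun p : ℝ × E => pm U p.1 p.2 F) (DL b U F (s, θ)) (s, θ) := by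
  obtain ⟨L, hL, hL'⟩ := ZF_tot b hZSM hU hF hs θ
  obtain ⟨M, hM, hM'⟩ := ZF_tot b hZSM hU (GC.const 1) hs θ
  have hp := ZF_one_pos hU hs θ
  have h1 := hL.mul ((hasDerivAt_inv hp.ne').comp_hasFDerivAt ((s, θ) : ℝ × E) hM)
  refine h1.congr_fderiv (ContinuousLinearMap.ext fun p => ?_)
  have e1 : ∀ G : E → ℝ, ZF U s θ (fun x => 1 * G x) = ZF U s θ G := fun G => by
    congr 1
    funext x
    rw [one_mul]
  unfold DL gj
  simp only [add_apply, smul_apply, sum_apply, smul_eq_mul, Function.comp_apply]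
  rw [hL', hM']
  simp only [e1]
  have e2 : ∀ G : E → ℝ, ZF U s θ G = pm U s θ G * ZF U s θ (fun _ => 1) := fun G => by
    unfold pm
    field_simp
  have e3 : ∑ j, ZF U s θ (fun x => F x * fj b j x) * ej b j p =
      ZF U s θ (fun _ => 1) * ∑ j, pm U s θ (fun x => F x * fj b j x) * ej b j p := by
    rw [Finset.mul_sum]
    refine Finset.sum_congr rfl fun i _ => ?_
    rw [e2]
    ring
  have e4 : ∑ j, ZF U s θ (fj b j) * ej b j p =
      ZF U s θ (fun _ => 1) * ∑ j, pm U s θ (fj b j) * ej b j p := by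
    rw [Finset.mul_sum]
    refine Finset.sum_congr rfl fun i _ => ?_
    rw [e2]
    ring
  have e5 : ∑ j, (pm U s θ (fun x => F x * fj b j x) - pm U s θ F * pm U s θ (fj b j)) *
      ej b j p = (∑ j, pm U s θ (fun x => F x * fj b j x) * ej b j p) -
      pm U s θ F * ∑ j, pm U s θ (fj b j) * ej b j p := by
    rw [Finset.mul_sum, ← Finset.sum_sub_distrib]
    refine Finset.sum_congr rfl fun i _ => ?_
    ring
  rw [e3, e4, e5, e2 F]
  have hne := hp.ne'
  field_simp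
  ring

theorem pm_bd (hPMG : PMGStmt E) {U : E → ℝ} {t : ℝ} (hPP : PP U t) {F : E → ℝ} (hF : GC F) :
    Bd (fun p : ℝ × E => pm U p.1 p.2 F) := by
  intro S
  obtain ⟨A, B, h⟩ := hPMG U t hPP F hF S
  refine ⟨|A|, |B|, abs_nonneg A, abs_nonneg B, fun s hs θ => ?_⟩
  refine (h s ⟨hs.1.le, hs.2⟩ θ).trans ?_
  exact mul_le_mul (le_abs_self A) (Real.exp_le_exp.2 (mul_le_mul_of_nonneg_right (le_abs_self B)
    (norm_nonneg θ))) (Real.exp_pos _).le (abs_nonneg A)

theorem gj_bd (hPMG : PMGStmt E) {U : E → ℝ} {t : ℝ} (hPP : PP U t) {F : E → ℝ} (hF : GC F)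
    (j : Option ι) : Bd (gj b U F j) :=
  (pm_bd hPMG hPP (hF.mul (gc_fj b j))).sub ((pm_bd hPMG hPP hF).mul
    (pm_bd hPMG hPP (gc_fj b j)))

theorem DL_bd (hPMG : PMGStmt E) {U : E → ℝ} {t : ℝ} (hPP : PP U t) {F : E → ℝ} (hF : GC F) :
    Bd (fun p => ‖DL b U F p‖) := by
  have h1 : Bd (fun p : ℝ × E => ∑ j, |gj b U F j p| * ‖ej b j‖) :=
    Bd.sum Finset.univ fun j => (gj_bd b hPMG hPP hF j).abs.mul (Bd.const _)
  refine h1.of_le fun s θ _ => ?_
  refine (le_of_eq (abs_norm_clm _)).trans ?_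
  exact (norm_lin_le _ _).trans (le_abs_self _)

end der

theorem pm_rg (hZSM : ZSMStmt E) (hPMG : PMGStmt E) {U : E → ℝ} {t : ℝ} (hPP : PP U t)
    {F : E → ℝ} (hF : GC F) : RG (fun s θ => pm U s θ F) := by
  obtain ⟨⟨C, hU⟩, hprob⟩ := id hPP
  have hpos := hU.pos
  set b := stdOrthonormalBasis ℝ E with hb
  have hunc : Function.uncurry (fun s θ => pm U s θ F) = fun p : ℝ × E => pm U p.1 p.2 F := by
    funext p
    rfl
  refine ⟨?_, ?_, ?_⟩
  · rw [hunc]
    have hsub : (Ioi (0:ℝ) ×ˢ (univ : Set E)) ⊆ Ioi (-t) ×ˢ univ := by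
      rintro ⟨s, θ⟩ ⟨hs, -⟩
      exact ⟨show -t < s from lt_trans (by linarith) (show (0:ℝ) < s from hs), mem_univ _⟩
    have h1 := contDiffOn_infty.1 ((hZSM U t C hU F hF).1.mono hsub) 2
    have h2 := contDiffOn_infty.1 ((hZSM U t C hU _ (GC.const 1)).1.mono hsub) 2
    exact h1.div h2 fun p hp => (ZF_one_pos hU (le_of_lt (show (0:ℝ) < p.1 from hp.1)) p.2).ne'
  · rw [hunc]
    exact pm_cont hZSM hU hF
  · intro S
    set g' : Option (Fin (Module.finrank ℝ E)) → ℝ × E → (ℝ × E →L[ℝ] ℝ) := fun j p =>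
      DL b U (fun x => F x * fj b j x) p - (pm U p.1 p.2 F • DL b U (fj b j) p +
        pm U p.1 p.2 (fj b j) • DL b U F p) with hg'
    have hBd2 : Bd (fun p : ℝ × E => ∑ j, (‖DL b U (fun x => F x * fj b j x) p‖ +
        (|pm U p.1 p.2 F| * ‖DL b U (fj b j) p‖ + |pm U p.1 p.2 (fj b j)| * ‖DL b U F p‖)) *
        ‖ej b j‖) :=
      Bd.sum Finset.univ fun j => ((DL_bd b hPMG hPP (hF.mul (gc_fj b j))).add
        (((pm_bd hPMG hPP hF).abs.mul (DL_bd b hPMG hPP (gc_fj b j))).add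
          ((pm_bd hPMG hPP (gc_fj b j)).abs.mul (DL_bd b hPMG hPP hF)))).mul (Bd.const _)
    obtain ⟨A0, B0, hA0, hB0, h0⟩ := pm_bd hPMG hPP hF S
    obtain ⟨A1, B1, hA1, hB1, h1⟩ := DL_bd b hPMG hPP hF S
    obtain ⟨A2, B2, hA2, hB2, h2⟩ := hBd2 S
    refine ⟨A0 + A1 + A2, B0 + B1 + B2, fun k hk s hs θ => ?_⟩
    rw [hunc]
    have hle : ∀ A B : ℝ, 0 ≤ A → A ≤ A0 + A1 + A2 → B ≤ B0 + B1 + B2 →
        A * Real.exp (B * ‖θ‖) ≤ (A0 + A1 + A2) * Real.exp ((B0 + B1 + B2) * ‖θ‖) := by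
      intro A B hA hAA hBB
      exact mul_le_mul hAA (Real.exp_le_exp.2 (mul_le_mul_of_nonneg_right hBB (norm_nonneg θ)))
        (Real.exp_pos _).le (by linarith)
    have hs0 : 0 ≤ s := hs.1.le
    interval_cases k
    · rw [norm_iteratedFDeriv_zero]
      exact (h0 s hs θ).trans (hle _ _ hA0 (by linarith) (by linarith))
    · rw [norm_iteratedFDeriv_one, (pm_tot b hZSM hU hF hs0 θ).fderiv]
      exact ((le_abs_self _).trans (h1 s hs θ)).trans (hle _ _ hA1 (by linarith) (by linarith))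
    · have hpos' : ∀ p ∈ Ioi (0:ℝ) ×ˢ (univ : Set E), 0 ≤ p.1 := fun p hp =>
        le_of_lt (show (0:ℝ) < p.1 from hp.1)
      have e1 := iter2_bound (V := ℝ × E) (f := fun p : ℝ × E => pm U p.1 p.2 F)
        (g := gj b U F) (g' := g') (e := ej b) (isOpen_Ioi.prod isOpen_univ)
        (fun p hp => pm_tot b hZSM hU hF (hpos' p hp) p.2)
        (fun p hp j => (pm_tot b hZSM hU (hF.mul (gc_fj b j)) (hpos' p hp) p.2).sub
          ((pm_tot b hZSM hU hF (hpos' p hp) p.2).mul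
            (pm_tot b hZSM hU (gc_fj b j) (hpos' p hp) p.2))) (p := (s, θ))
        ⟨hs.1, mem_univ _⟩
      refine e1.trans ?_
      refine le_trans ?_ (((le_abs_self _).trans (h2 s hs θ)).trans
        (hle _ _ hA2 (by linarith) (by linarith)))
      refine Finset.sum_le_sum fun j _ => ?_
      exact mul_le_mul_of_nonneg_right (norm_three_le _ _ _ _ _) (norm_nonneg _)

theorem rgp_thm (E : Type) [NormedAddCommGroup E] [InnerProductSpace ℝ E]
    [FiniteDimensional ℝ E] [MeasurableSpace E] [BorelSpace E] (hZSM : ZSMStmt E)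
    (hPMG : PMGStmt E) : RGPStmt E := by
  intro U t hPP F hF
  obtain ⟨⟨C, hU⟩, hprob⟩ := id hPP
  refine ⟨pm_rg hZSM hPMG hPP hF, ?_, ?_⟩
  · intro s θ η hs
    obtain ⟨L, hL, hL'⟩ := pm_fderiv hZSM hU hF hs θ
    exact ⟨hL.differentiableAt, by rw [hL.fderiv, hL']⟩
  · intro ι _ b s θ hs
    have hs0 := hs.le
    have hD : ∀ G : E → ℝ, GC G → ∀ (e θ : E), D e (fun θ => pm U s θ G) θ =
        pm U s θ (fun x => G x * li e x) - pm U s θ G * pm U s θ (li e) := by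
      intro G hG e θ
      obtain ⟨L, hL, hL'⟩ := pm_fderiv hZSM hU hG hs0 θ
      unfold D
      rw [hL.fderiv, hL', cv_pw hU hs0]
    have hdiff : ∀ G : E → ℝ, GC G → ∀ θ : E, DifferentiableAt ℝ (fun θ => pm U s θ G) θ := by
      intro G hG θ
      obtain ⟨L, hL, -⟩ := pm_fderiv hZSM hU hG hs0 θ
      exact hL.differentiableAt
    have hD2 : ∀ (e θ : E), D e (D e (fun θ => pm U s θ F)) θ =
        (pm U s θ (fun x => F x * li e x ^ 2) -
          2 * pm U s θ (fun x => F x * li e x) * pm U s θ (li e)) +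
        (2 * pm U s θ F * pm U s θ (li e) ^ 2 - pm U s θ F * pm U s θ (fun x => li e x ^ 2)) := by
      intro e θ
      have h1 : D e (fun θ => pm U s θ F) = fun θ =>
          pm U s θ (fun x => F x * li e x) - pm U s θ F * pm U s θ (li e) := by
        funext θ
        exact hD F hF e θ
      rw [h1]
      have k1 := (hdiff _ (hF.mul (gc_lin e)) θ).hasFDerivAt
      have k2 := (hdiff _ hF θ).hasFDerivAt
      have k3 := (hdiff _ (gc_lin e) θ).hasFDerivAt
      have k4 := (k1.sub (k2.mul k3)).fderiv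
      have d1 := hD _ (hF.mul (gc_lin e)) e θ
      have d2 := hD _ hF e θ
      have d3 := hD _ (gc_lin e) e θ
      unfold D at d1 d2 d3 ⊢
      have k5 : fderiv ℝ (fun θ => pm U s θ (fun x => F x * li e x) -
          pm U s θ F * pm U s θ (li e)) θ = _ := k4
      rw [k5]
      simp only [sub_apply, add_apply, smul_apply, smul_eq_mul]
      rw [d1, d2, d3]
      have e1 : (fun x : E => F x * li e x * li e x) = fun x => F x * li e x ^ 2 := by
        funext x
        ring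
      have e2 : (fun x : E => li e x * li e x) = fun x => li e x ^ 2 := by
        funext x
        ring
      rw [e1, e2]
      ring
    have hdt : deriv (fun r => pm U r θ F) s =
        pm U s θ (fun x => F x * qf x) - pm U s θ F * pm U s θ qf := by
      have h1 := pm_tot b hZSM hU hF hs0 θ
      have h2 : HasDerivAt (fun r : ℝ => ((r, θ) : ℝ × E)) (1, 0) s :=
        (hasDerivAt_id s).prodMk (hasDerivAt_const s θ)
      have h3 := (h1.comp_hasDerivAt s h2).deriv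
      have h4 : deriv (fun r => pm U r θ F) s = _ := h3
      rw [h4]
      unfold DL
      rw [sum_apply, Fintype.sum_option]
      simp only [smul_apply, smul_eq_mul]
      have h5 : ej b none (((1:ℝ), (0:E)) : ℝ × E) = 1 := rfl
      have h6 : ∀ i, ej b (some i) (((1:ℝ), (0:E)) : ℝ × E) = 0 := fun i => by
        show inner ℝ (b i) (0:E) = 0
        exact inner_zero_right _
      rw [h5, Finset.sum_eq_zero fun i _ => by rw [h6, mul_zero], add_zero, mul_one]
      rfl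
    have hsq : ∀ x : E, ∑ i, li (b i) x ^ 2 = ‖x‖ ^ 2 := by
      intro x
      rw [← b.sum_sq_norm_inner_right x]
      refine Finset.sum_congr rfl fun i _ => ?_
      rw [Real.norm_eq_abs, sq_abs]
      rfl
    have hsum : ∀ G : E → ℝ, GC G → ∑ i, pm U s θ (fun x => G x * li (b i) x ^ 2) =
        -2 * pm U s θ (fun x => G x * qf x) := by
      intro G hG
      have g : ∀ i, GC (fun x => G x * li (b i) x ^ 2) := fun i => hG.mul (gc_lin (b i)).sq
      have h1 : pm U s θ (fun x => ∑ i, G x * li (b i) x ^ 2) =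
          ∑ i, pm U s θ (fun x => G x * li (b i) x ^ 2) := by
        unfold pm
        rw [ZF_sum hU hs0 θ _ g, Finset.sum_div]
      rw [← h1, ← pm_const_mul hU hs0]
      congr 1
      funext x
      rw [← Finset.mul_sum, hsq]
      unfold qf
      ring
    have hsum1 : ∑ i, pm U s θ (fun x => li (b i) x ^ 2) = -2 * pm U s θ qf := by
      have := hsum (fun _ => 1) (GC.const 1)
      simpa only [one_mul] using this
    unfold gen
    rw [hdt]
    simp only [hD2]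
    rw [Finset.sum_add_distrib, Finset.sum_sub_distrib, Finset.sum_sub_distrib, hsum F hF]
    have e0 : ∑ i, pm U s θ F * pm U s θ (fun x => li (b i) x ^ 2) =
        pm U s θ F * (-2 * pm U s θ qf) := by
      rw [← Finset.mul_sum, hsum1]
    have e1 : ∑ i, pm U s θ (li (b i)) * D (b i) (fun θ => pm U s θ F) θ =
        (∑ i, pm U s θ (fun x => F x * li (b i) x) * pm U s θ (li (b i))) -
        pm U s θ F * ∑ i, pm U s θ (li (b i)) ^ 2 := by
      rw [Finset.mul_sum, ← Finset.sum_sub_distrib]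
      refine Finset.sum_congr rfl fun i _ => ?_
      rw [hD F hF]
      ring
    have e2 : ∑ i, 2 * pm U s θ (fun x => F x * li (b i) x) * pm U s θ (li (b i)) =
        2 * ∑ i, pm U s θ (fun x => F x * li (b i) x) * pm U s θ (li (b i)) := by
      rw [Finset.mul_sum]
      exact Finset.sum_congr rfl fun i _ => by ring
    have e3 : ∑ i, 2 * pm U s θ F * pm U s θ (li (b i)) ^ 2 =
        2 * pm U s θ F * ∑ i, pm U s θ (li (b i)) ^ 2 := by
      rw [Finset.mul_sum]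
    rw [e0, e1, e2, e3]
    ring

end Pool.Agent.H85.KG
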