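import Pool.Agent.H73.KG.Stmts

/-!
# Module WHI: third moments in whitened coordinates
-/

set_option autoImplicit false

open MeasureTheory Set
open scoped ContDiff

namespace Pool.Agent.H85.KG

open Pool.Agent.H84 Pool.Agent.H84.Sym Pool.Agent.H84.Sym.P2x Pool.Agent.H19.KL
open Pool.Agent.H84.Sym.C29 Pool.Agent.H84.Sym.P6
open Pool.Agent.H73.KG

variable {E : Type} [NormedAddCommGroup E] [InnerProductSpace ℝ E]

/-- a linear change of variables for potentials -/
theorem pot_lin (φ : E ≃L[ℝ] E) {U : E → ℝ} {t C : ℝ} (hU : Pot U t C) {a : ℝ} (ha : 0 < a)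
    (hφ : ∀ v : E, a * ‖v‖ ^ 2 ≤ ‖φ v‖ ^ 2) :
    ∃ C' : ℝ, Pot (fun x => U (φ x)) (t * a) C' := by
  have e1 : ∀ x, HasFDerivAt (fun x => U (φ x))
      ((fderiv ℝ U (φ x)).comp (φ : E →L[ℝ] E)) x := by
    intro x
    have h1 : HasFDerivAt U (fderiv ℝ U (φ x)) (φ x) :=
      (hU.smooth.differentiable (by norm_num) (φ x)).hasFDerivAt
    have h2 : HasFDerivAt (fun y => φ y) (φ : E →L[ℝ] E) x := φ.hasFDerivAt
    exact h1.comp x h2
  have hC : 0 ≤ C := by
    have := hU.grad 0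
    rw [norm_zero, add_zero, mul_one] at this
    exact (norm_nonneg _).trans this
  refine ⟨C * ‖(φ : E →L[ℝ] E)‖ * (1 + ‖(φ : E →L[ℝ] E)‖), hU.smooth.comp φ.contDiff,
    mul_pos hU.pos ha, ?_, ?_⟩
  · intro x v
    have e2 : fderiv ℝ (fun x => U (φ x)) = fun x =>
        (fderiv ℝ U (φ x)).comp (φ : E →L[ℝ] E) :=
      funext fun x => (e1 x).fderiv
    have hs : ContDiff ℝ 2 (fun x => U (φ x)) := hU.smooth.comp φ.contDiff
    have h3 : HasFDerivAt (fun y => fderiv ℝ (fun x => U (φ x)) y v)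
        ((ContinuousLinearMap.apply ℝ ℝ v).comp (fderiv ℝ (fderiv ℝ (fun x => U (φ x))) x)) x := by
      have h1 : DifferentiableAt ℝ (fderiv ℝ (fun x => U (φ x))) x :=
        ((hs.fderiv_right (m := 1) (by norm_num)).differentiable (by norm_num)) x
      exact (ContinuousLinearMap.apply ℝ ℝ v).hasFDerivAt.comp x h1.hasFDerivAt
    have h4 : (fun y => fderiv ℝ (fun x => U (φ x)) y v) = fun y => fderiv ℝ U (φ y) (φ v) := by
      funext y
      rw [e2]
      rfl
    have h5 : HasFDerivAt (fun y => fderiv ℝ U (φ y) (φ v))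
        (((ContinuousLinearMap.apply ℝ ℝ (φ v)).comp (fderiv ℝ (fderiv ℝ U) (φ x))).comp
          (φ : E →L[ℝ] E)) x := by
      have h1 : HasFDerivAt (fderiv ℝ U) (fderiv ℝ (fderiv ℝ U) (φ x)) (φ x) :=
        (((hU.smooth.fderiv_right (m := 1) (by norm_num)).differentiable (by norm_num))
          (φ x)).hasFDerivAt
      have h2 : HasFDerivAt (fun y => φ y) (φ : E →L[ℝ] E) x := φ.hasFDerivAt
      have h6 : HasFDerivAt (fun y => fderiv ℝ U y (φ v))
          ((ContinuousLinearMap.apply ℝ ℝ (φ v)).comp (fderiv ℝ (fderiv ℝ U) (φ x))) (φ x) :=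
        (ContinuousLinearMap.apply ℝ ℝ (φ v)).hasFDerivAt.comp (φ x) h1
      exact h6.comp x h2
    rw [h4] at h3
    have h7 := h3.unique h5
    have h8 : fderiv ℝ (fderiv ℝ (fun x => U (φ x))) x v v =
        fderiv ℝ (fderiv ℝ U) (φ x) (φ v) (φ v) := by
      have := congrArg (fun L : E →L[ℝ] ℝ => L v) h7
      exact this
    rw [h8]
    refine le_trans ?_ (hU.hess _ _)
    rw [mul_assoc]
    exact mul_le_mul_of_nonneg_left (hφ v) hU.pos.le
  · intro x
    rw [(e1 x).fderiv]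
    have h1 := hU.grad (φ x)
    have h2 : ‖φ x‖ ≤ ‖(φ : E →L[ℝ] E)‖ * ‖x‖ := (φ : E →L[ℝ] E).le_opNorm x
    calc ‖(fderiv ℝ U (φ x)).comp (φ : E →L[ℝ] E)‖ ≤ ‖fderiv ℝ U (φ x)‖ * ‖(φ : E →L[ℝ] E)‖ :=
          ContinuousLinearMap.opNorm_comp_le _ _
      _ ≤ (C * (1 + ‖φ x‖)) * ‖(φ : E →L[ℝ] E)‖ :=
          mul_le_mul_of_nonneg_right h1 (norm_nonneg _)
      _ ≤ (C * (1 + ‖(φ : E →L[ℝ] E)‖ * ‖x‖)) * ‖(φ : E →L[ℝ] E)‖ := by gcongr
      _ ≤ _ := by
          have h3 := norm_nonneg (φ : E →L[ℝ] E)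
          have h4 := norm_nonneg x
          have h5 : 1 + ‖(φ : E →L[ℝ] E)‖ * ‖x‖ ≤ (1 + ‖(φ : E →L[ℝ] E)‖) * (1 + ‖x‖) := by
            nlinarith
          calc (C * (1 + ‖(φ : E →L[ℝ] E)‖ * ‖x‖)) * ‖(φ : E →L[ℝ] E)‖
              = C * ‖(φ : E →L[ℝ] E)‖ * (1 + ‖(φ : E →L[ℝ] E)‖ * ‖x‖) := by ring
            _ ≤ C * ‖(φ : E →L[ℝ] E)‖ * ((1 + ‖(φ : E →L[ℝ] E)‖) * (1 + ‖x‖)) :=
                mul_le_mul_of_nonneg_left h5 (mul_nonneg hC h3)
            _ = _ := by ring

variable [FiniteDimensional ℝ E] [MeasurableSpace E] [BorelSpace E]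

/-- the image measure -/
theorem int_lin (φ : E ≃L[ℝ] E) : ∃ a : ℝ, ∀ U : E → ℝ, Continuous U → ∀ F : E → ℝ,
    ∫ w, F (φ w) ∂(mu (fun w => U (φ w) + a)) = ∫ x, F x ∂(mu U) := by
  set d : ℝ := |LinearMap.det (φ : E →ₗ[ℝ] E)| with hd
  have hdet : LinearMap.det (φ : E →ₗ[ℝ] E) ≠ 0 :=
    (LinearEquiv.isUnit_det' φ.toLinearEquiv).ne_zero
  have hd0 : 0 < d := abs_pos.2 hdet
  have hmap : Measure.map φ (volume : Measure E) = ENNReal.ofReal (d⁻¹) • volume := by
    have := Measure.map_linearMap_addHaar_eq_smul_addHaar (μ := (volume : Measure E)) hdet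
    rw [abs_inv] at this
    exact this
  have hme : MeasurableEmbedding φ := φ.toHomeomorph.measurableEmbedding
  refine ⟨-Real.log d, fun U hU F => ?_⟩
  have hc : Continuous (fun w => U (φ w) + -Real.log d) :=
    (hU.comp φ.continuous).add continuous_const
  rw [integral_mu hc, integral_mu hU]
  have h2 : ∫ x, F x * Real.exp (-U x) ∂(Measure.map φ (volume : Measure E))
      = ∫ y, F (φ y) * Real.exp (-U (φ y)) := hme.integral_map _
  rw [hmap, integral_smul_measure, ENNReal.toReal_ofReal (by positivity), smul_eq_mul] at h2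
  have h3 : ∀ w : E, F (φ w) * Real.exp (-(U (φ w) + -Real.log d)) =
      d * (F (φ w) * Real.exp (-U (φ w))) := by
    intro w
    rw [neg_add, neg_neg, Real.exp_add, Real.exp_log hd0]
    ring
  simp only [h3]
  rw [integral_const_mul, ← h2, ← mul_assoc, mul_inv_cancel₀ hd0.ne', one_mul]

theorem whi_thm (E : Type) [NormedAddCommGroup E] [InnerProductSpace ℝ E]
    [FiniteDimensional ℝ E] [MeasurableSpace E] [BorelSpace E] (hBAS : BASStmt E) :
    WHIStmt E := by
  obtain ⟨-, -, -, -, -, -, hB7⟩ := hBAS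
  intro U s K hPP hTK ι _ _ c lam hlam hcm i₀
  obtain ⟨⟨C, hU⟩, hprob⟩ := hPP
  set Dg : ι → ℝ := fun i => max (lam i) (1 / 2) with hDg
  have hDpos : ∀ i, 0 < Dg i := fun i => lt_of_lt_of_le (by norm_num) (le_max_right _ _)
  have hDhalf : ∀ i, 1 / 2 ≤ Dg i := fun i => le_max_right _ _
  have hDlam : ∀ i, lam i ≤ Dg i := fun i => le_max_left _ _
  set q : ι → ℝ := fun i => Real.sqrt (Dg i) with hq
  have hqpos : ∀ i, 0 < q i := fun i => Real.sqrt_pos.2 (hDpos i)
  have hqsq : ∀ i, q i ^ 2 = Dg i := fun i => Real.sq_sqrt (hDpos i).le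
  -- the linear map
  let T : E →ₗ[ℝ] E := c.toBasis.constr ℝ (fun i => q i • c i)
  let S : E →ₗ[ℝ] E := c.toBasis.constr ℝ (fun i => (q i)⁻¹ • c i)
  have hT : ∀ i, T (c i) = q i • c i := by
    intro i
    have := c.toBasis.constr_basis ℝ (fun i => q i • c i) i
    rwa [c.coe_toBasis] at this
  have hS : ∀ i, S (c i) = (q i)⁻¹ • c i := by
    intro i
    have := c.toBasis.constr_basis ℝ (fun i => (q i)⁻¹ • c i) i
    rwa [c.coe_toBasis] at this
  have hTS : T ∘ₗ S = LinearMap.id := by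
    apply c.toBasis.ext
    intro i
    rw [c.coe_toBasis, LinearMap.comp_apply, hS, map_smul, hT, smul_smul,
      inv_mul_cancel₀ (hqpos i).ne', one_smul, LinearMap.id_apply]
  have hST : S ∘ₗ T = LinearMap.id := by
    apply c.toBasis.ext
    intro i
    rw [c.coe_toBasis, LinearMap.comp_apply, hT, map_smul, hS, smul_smul,
      mul_inv_cancel₀ (hqpos i).ne', one_smul, LinearMap.id_apply]
  let φ : E ≃L[ℝ] E := (LinearEquiv.ofLinearMap T S hTS hST).toContinuousLinearEquiv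
  have hφ : ∀ w, φ w = T w := fun w => rfl
  -- coordinates
  have hco : ∀ (w : E) (i : ι), inner ℝ (c i) (φ w) = q i * inner ℝ (c i) w := by
    intro w i
    have h1 : w = ∑ j, (inner ℝ (c j) w : ℝ) • c j := (c.sum_repr' w).symm
    have h2 : φ w = ∑ j, (inner ℝ (c j) w : ℝ) • (q j • c j) := by
      rw [hφ]
      conv_lhs => rw [h1]
      rw [map_sum]
      exact Finset.sum_congr rfl fun j _ => by rw [map_smul, hT]
    rw [h2, inner_sum]
    rw [Finset.sum_eq_single i]
    · rw [inner_smul_right, inner_smul_right, real_inner_self_eq_norm_sq, c.norm_eq_one]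
      ring
    · intro j _ hj
      rw [inner_smul_right, inner_smul_right, c.orthonormal.inner_eq_zero (Ne.symm hj)]
      ring
    · intro h
      exact absurd (Finset.mem_univ i) h
  have hnorm : ∀ v : E, 1 / 2 * ‖v‖ ^ 2 ≤ ‖φ v‖ ^ 2 := by
    intro v
    rw [← c.sum_sq_norm_inner_right v, ← c.sum_sq_norm_inner_right (φ v), Finset.mul_sum]
    apply Finset.sum_le_sum
    intro i _
    rw [hco, Real.norm_eq_abs, Real.norm_eq_abs, sq_abs, sq_abs, mul_pow, hqsq]
    exact mul_le_mul_of_nonneg_right (hDhalf i) (sq_nonneg _)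
  obtain ⟨a, ha⟩ := int_lin φ
  set V : E → ℝ := fun w => U (φ w) + a with hV
  have hI : ∀ F : E → ℝ, ∫ w, F (φ w) ∂(mu V) = ∫ x, F x ∂(mu U) :=
    fun F => ha U hU.smooth.continuous F
  obtain ⟨C', hC'⟩ := pot_lin φ hU (by norm_num : (0:ℝ) < 1 / 2) hnorm
  have hVpot : Pot V (s / 2) C' := by
    have := pot_add_const hC' a
    rwa [mul_one_div] at this
  have hVprob : IsProbabilityMeasure (mu V) := by
    have h1 := hI (fun _ => 1)
    simp only [integral_const, smul_eq_mul, mul_one] at h1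
    have h2 : (mu U).real univ = 1 := by
      rw [Measure.real, measure_univ, ENNReal.toReal_one]
    rw [h2] at h1
    exact ⟨(ENNReal.toReal_eq_one_iff _).1 h1⟩
  have hPPV : PP V (s / 2) := ⟨⟨C', hVpot⟩, hVprob⟩
  have hli : ∀ (i : ι) (w : E), li (c i) w = (q i)⁻¹ * li (c i) (φ w) := by
    intro i w
    unfold li
    rw [hco, ← mul_assoc, inv_mul_cancel₀ (hqpos i).ne', one_mul]
  have hmn : ∀ i, H73.KG.mn V (c i) = (q i)⁻¹ * H73.KG.mn U (c i) := by
    intro i
    unfold H73.KG.mn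
    rw [← integral_const_mul, ← hI]
    exact integral_congr_ae (Filter.Eventually.of_forall fun w => hli i w)
  have hcmV : cm c V = Matrix.diagonal (fun i => lam i / Dg i) := by
    ext i j
    have h1 : cm c V i j = (q i)⁻¹ * (q j)⁻¹ * cm c U i j := by
      show cv V (li (c i)) (li (c j)) = (q i)⁻¹ * (q j)⁻¹ * cv U (li (c i)) (li (c j))
      have e1 : ∫ x, li (c i) x * li (c j) x ∂(mu V) =
          (q i)⁻¹ * (q j)⁻¹ * ∫ x, li (c i) x * li (c j) x ∂(mu U) := by
        rw [← integral_const_mul, ← hI]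
        refine integral_congr_ae (Filter.Eventually.of_forall fun w => ?_)
        show li (c i) w * li (c j) w = _
        rw [hli i w, hli j w]
        ring
      have e2 := hmn i
      have e3 := hmn j
      unfold H73.KG.mn at e2 e3
      unfold H73.KG.cv
      rw [e1, e2, e3]
      ring
    rw [h1, hcm]
    by_cases hij : i = j
    · subst hij
      rw [Matrix.diagonal_apply_eq, Matrix.diagonal_apply_eq, ← hqsq i]
      field_simp
    · rw [Matrix.diagonal_apply_ne _ hij, Matrix.diagonal_apply_ne _ hij, mul_zero]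
  have hcov : CovLe V 1 := by
    apply hB7 V (s / 2) hPPV ι c 1
    rw [hcmV, one_smul, ← Matrix.diagonal_one, Matrix.diagonal_sub]
    rw [Matrix.posSemidef_diagonal_iff]
    intro i
    have : lam i / Dg i ≤ 1 := (div_le_one (hDpos i)).2 (hDlam i)
    linarith
  have ht3 : ∀ i j k, t3 V (c i) (c j) (c k) =
      (q i)⁻¹ * (q j)⁻¹ * (q k)⁻¹ * t3 U (c i) (c j) (c k) := by
    intro i j k
    unfold t3
    rw [← integral_const_mul, ← hI]
    refine integral_congr_ae (Filter.Eventually.of_forall fun w => ?_)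
    show (li (c i) w - H73.KG.mn V (c i)) * (li (c j) w - H73.KG.mn V (c j)) *
      (li (c k) w - H73.KG.mn V (c k)) = _
    rw [hli i w, hli j w, hli k w, hmn, hmn, hmn]
    ring
  have hfin := hTK V hPPV hcov (c i₀) (c.norm_eq_one i₀) ι c
  refine le_trans (le_of_eq ?_) hfin
  refine Finset.sum_congr rfl fun j _ => Finset.sum_congr rfl fun k _ => ?_
  have hmax : ∀ i, max (lam i) (1 / 2) = q i ^ 2 := fun i => (hqsq i).symm
  rw [ht3, hmax, hmax, hmax]
  have := (hqpos i₀).ne'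
  have := (hqpos j).ne'
  have := (hqpos k).ne'
  field_simp

end Pool.Agent.H85.KG
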