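import Pool.Agent.H85.KG.PWB

/-!
# Posterior means: elementary facts, the derivative in the natural parameter
-/

set_option autoImplicit false

open MeasureTheory Set Filter Topology
open scoped ContDiff

namespace Pool.Agent.H85.KG

open Pool.Agent.H84 Pool.Agent.H84.Sym Pool.Agent.H84.Sym.P2x Pool.Agent.H19.KL
open Pool.Agent.H84.Sym.C29 Pool.Agent.H84.Sym.P6
open Pool.Agent.H73.KG

variable {E : Type} [NormedAddCommGroup E] [InnerProductSpace ℝ E]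

theorem gc_lin (e : E) : GC (li e) := by
  refine ⟨continuous_const.inner continuous_id, ‖e‖, 1, fun x => ?_⟩
  have h1 := abs_real_inner_le_norm e x
  have h2 := Real.add_one_le_exp ‖x‖
  have h3 : ‖x‖ ≤ Real.exp (1 * ‖x‖) := by rw [one_mul]; linarith
  exact h1.trans (mul_le_mul_of_nonneg_left h3 (norm_nonneg e))

theorem gc_nrm : GC (fun x : E => ‖x‖) := ⟨continuous_norm, Gr.nrm⟩

variable [FiniteDimensional ℝ E] [MeasurableSpace E] [BorelSpace E]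

theorem pw_pot {U : E → ℝ} {t C : ℝ} (hU : Pot U t C) {s : ℝ} (hs : 0 ≤ s) (θ : E) :
    ∃ C' : ℝ, Pot (pw U s θ) (t + s) C' := by
  obtain ⟨C', h⟩ := tp_add_pot hU hs θ (Real.log (ZF U s θ (fun _ => 1)))
  exact ⟨C', h⟩

theorem pm_add {U : E → ℝ} {t C : ℝ} (hU : Pot U t C) {s : ℝ} (hs : 0 ≤ s) (θ : E)
    {F G : E → ℝ} (hF : GC F) (hG : GC G) :
    pm U s θ (fun x => F x + G x) = pm U s θ F + pm U s θ G := by
  obtain ⟨C', h⟩ := pw_pot hU hs θ
  rw [← int_pw hU hs, ← int_pw hU hs, ← int_pw hU hs]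
  exact integral_add (hF.integrable h) (hG.integrable h)

theorem pm_const_mul {U : E → ℝ} {t C : ℝ} (hU : Pot U t C) {s : ℝ} (hs : 0 ≤ s) (θ : E)
    (c : ℝ) (F : E → ℝ) : pm U s θ (fun x => c * F x) = c * pm U s θ F := by
  rw [← int_pw hU hs, ← int_pw hU hs, integral_const_mul]

theorem pm_mono {U : E → ℝ} {t C : ℝ} (hU : Pot U t C) {s : ℝ} (hs : 0 ≤ s) (θ : E)
    {F G : E → ℝ} (hF : GC F) (hG : GC G) (h : ∀ x, F x ≤ G x) : pm U s θ F ≤ pm U s θ G := by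
  obtain ⟨C', h'⟩ := pw_pot hU hs θ
  rw [← int_pw hU hs, ← int_pw hU hs]
  exact integral_mono (hF.integrable h') (hG.integrable h') h

theorem pm_const {U : E → ℝ} {t C : ℝ} (hU : Pot U t C) {s : ℝ} (hs : 0 ≤ s) (θ : E)
    (c : ℝ) : pm U s θ (fun _ => c) = c := by
  have := prob_pw hU hs θ
  rw [← int_pw hU hs]
  simp

theorem pm_nonneg {U : E → ℝ} {t C : ℝ} (hU : Pot U t C) {s : ℝ} (hs : 0 ≤ s) (θ : E)
    {F : E → ℝ} (h : ∀ x, 0 ≤ F x) : 0 ≤ pm U s θ F := by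
  rw [← int_pw hU hs]
  exact integral_nonneg h

theorem cv_pw {U : E → ℝ} {t C : ℝ} (hU : Pot U t C) {s : ℝ} (hs : 0 ≤ s) (θ : E)
    (F G : E → ℝ) : cv (pw U s θ) F G =
      pm U s θ (fun x => F x * G x) - pm U s θ F * pm U s θ G := by
  unfold H73.KG.cv
  rw [int_pw hU hs, int_pw hU hs, int_pw hU hs]

/-- the derivative of the tilted integrals in the natural parameter -/
theorem ZF_fderiv (hZSM : ZSMStmt E) {U : E → ℝ} {t C : ℝ} (hU : Pot U t C) {F : E → ℝ}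
    (hF : GC F) {s : ℝ} (hs : 0 ≤ s) (θ : E) :
    ∃ L : E →L[ℝ] ℝ, HasFDerivAt (fun θ => ZF U s θ F) L θ ∧
      ∀ η, L η = ZF U s θ (fun x => F x * li η x) := by
  obtain ⟨h1, h2⟩ := hZSM U t C hU F hF
  have hpos := hU.pos
  have hmem : (Ioi (-t) ×ˢ (univ : Set E)) ∈ 𝓝 ((s, θ) : ℝ × E) :=
    (isOpen_Ioi.prod isOpen_univ).mem_nhds ⟨show -t < s by linarith, mem_univ _⟩
  have h3 : HasFDerivAt (fun p : ℝ × E => ZF U p.1 p.2 F)
      (fderiv ℝ (fun p : ℝ × E => ZF U p.1 p.2 F) (s, θ)) (s, θ) :=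
    ((h1.contDiffAt hmem).differentiableAt (by simp)).hasFDerivAt
  refine ⟨(fderiv ℝ (fun p : ℝ × E => ZF U p.1 p.2 F) (s, θ)).comp
    (ContinuousLinearMap.inr ℝ ℝ E), ?_, ?_⟩
  · exact h3.comp θ (hasFDerivAt_prodMk_right s θ)
  · intro η
    have := h2 s θ (by linarith) 0 η
    rw [ContinuousLinearMap.comp_apply, ContinuousLinearMap.inr_apply, this]
    congr 1
    funext x
    unfold li
    ring

/-- the derivative of the posterior means in the natural parameter -/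
theorem pm_fderiv (hZSM : ZSMStmt E) {U : E → ℝ} {t C : ℝ} (hU : Pot U t C) {F : E → ℝ}
    (hF : GC F) {s : ℝ} (hs : 0 ≤ s) (θ : E) :
    ∃ L : E →L[ℝ] ℝ, HasFDerivAt (fun θ => pm U s θ F) L θ ∧
      ∀ η, L η = cv (pw U s θ) F (li η) := by
  obtain ⟨L, hL, hL'⟩ := ZF_fderiv hZSM hU hF hs θ
  obtain ⟨M, hM, hM'⟩ := ZF_fderiv hZSM hU (GC.const 1) hs θ
  have hp := ZF_one_pos hU hs θ
  have h1 := hL.mul ((hasDerivAt_inv hp.ne').comp_hasFDerivAt θ hM)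
  refine ⟨_, h1, fun η => ?_⟩
  rw [cv_pw hU hs]
  have e1 : ZF U s θ (fun x => 1 * li η x) = ZF U s θ (li η) := by
    congr 1
    funext x
    rw [one_mul]
  simp only [add_apply, smul_apply, smul_eq_mul, Function.comp_apply]
  rw [hL', hM', e1]
  unfold pm
  field_simp
  ring

/-- continuity in the time variable -/
theorem ZF_cont (hZSM : ZSMStmt E) {U : E → ℝ} {t C : ℝ} (hU : Pot U t C) {F : E → ℝ}
    (hF : GC F) : ContinuousOn (fun p : ℝ × E => ZF U p.1 p.2 F) (Ici 0 ×ˢ univ) := by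
  obtain ⟨h1, -⟩ := hZSM U t C hU F hF
  have hpos := hU.pos
  refine h1.continuousOn.mono ?_
  rintro ⟨s, θ⟩ ⟨hs, -⟩
  exact ⟨show -t < s from lt_of_lt_of_le (by linarith) (show (0:ℝ) ≤ s from hs), mem_univ _⟩

theorem pm_cont (hZSM : ZSMStmt E) {U : E → ℝ} {t C : ℝ} (hU : Pot U t C) {F : E → ℝ}
    (hF : GC F) : ContinuousOn (fun p : ℝ × E => pm U p.1 p.2 F) (Ici 0 ×ˢ univ) := by
  have h1 := ZF_cont hZSM hU hF
  have h2 := ZF_cont hZSM hU (GC.const (H := E) 1)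
  exact h1.div h2 fun p hp => (ZF_one_pos hU (show (0:ℝ) ≤ p.1 from hp.1) p.2).ne'

end Pool.Agent.H85.KG
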